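import Pool.Agent.Q285.HE.Mem

/-!
# Hyperbolic and elliptic lines on split cubic surfaces: the possible numbers of non-squares
-/

set_option linter.unusedSimpArgs false

namespace Pool.Agent.Q285.HE

open Finset Pool.Agent.Q52.HE

section
variable {K : Type} [Field K]

theorem flip0 (c y : Fin 5 → K) : ∃ r, RR c y * RR (Function.update c 0 (-c 0)) y = r * r * DD c y 0 := by
  refine ⟨(c 1 * y 2 + c 2 * y 1) * (c 1 * y 3 + c 3 * y 1) * (c 1 * y 4 + c 4 * y 1) * (c 2 * y 3 + c 3 * y 2) * (c 2 * y 4 + c 4 * y 2) * (c 3 * y 4 + c 4 * y 3), ?_⟩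
  have hu : ∀ j, j ≠ 0 → Function.update c 0 (-c 0) j = c j := fun j hj => Function.update_of_ne hj _ _
  have h1 : (c 0 * y 1 + c 1 * y 0) * (-c 0 * y 1 + c 1 * y 0) = -(c 0 ^ 2 * y 1 ^ 2 - c 1 ^ 2 * y 0 ^ 2) := by ring
  have h2 : (c 0 * y 2 + c 2 * y 0) * (-c 0 * y 2 + c 2 * y 0) = -(c 0 ^ 2 * y 2 ^ 2 - c 2 ^ 2 * y 0 ^ 2) := by ring
  have h3 : (c 0 * y 3 + c 3 * y 0) * (-c 0 * y 3 + c 3 * y 0) = -(c 0 ^ 2 * y 3 ^ 2 - c 3 ^ 2 * y 0 ^ 2) := by ring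
  have h4 : (c 0 * y 4 + c 4 * y 0) * (-c 0 * y 4 + c 4 * y 0) = -(c 0 ^ 2 * y 4 ^ 2 - c 4 ^ 2 * y 0 ^ 2) := by ring
  simp only [RR, DD, erase_prod, hu 1 (by decide), hu 2 (by decide), hu 3 (by decide), hu 4 (by decide), Function.update_self, Matrix.cons_val_zero, Matrix.cons_val_one, Matrix.cons_val]
  generalize c 0 * y 1 + c 1 * y 0 = f1 at *
  generalize -c 0 * y 1 + c 1 * y 0 = g1 at *
  generalize c 0 ^ 2 * y 1 ^ 2 - c 1 ^ 2 * y 0 ^ 2 = d1 at *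
  generalize c 0 * y 2 + c 2 * y 0 = f2 at *
  generalize -c 0 * y 2 + c 2 * y 0 = g2 at *
  generalize c 0 ^ 2 * y 2 ^ 2 - c 2 ^ 2 * y 0 ^ 2 = d2 at *
  generalize c 0 * y 3 + c 3 * y 0 = f3 at *
  generalize -c 0 * y 3 + c 3 * y 0 = g3 at *
  generalize c 0 ^ 2 * y 3 ^ 2 - c 3 ^ 2 * y 0 ^ 2 = d3 at *
  generalize c 0 * y 4 + c 4 * y 0 = f4 at *
  generalize -c 0 * y 4 + c 4 * y 0 = g4 at *
  generalize c 0 ^ 2 * y 4 ^ 2 - c 4 ^ 2 * y 0 ^ 2 = d4 at *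
  generalize c 1 * y 2 + c 2 * y 1 = q0 at *
  generalize c 1 * y 3 + c 3 * y 1 = q1 at *
  generalize c 1 * y 4 + c 4 * y 1 = q2 at *
  generalize c 2 * y 3 + c 3 * y 2 = q3 at *
  generalize c 2 * y 4 + c 4 * y 2 = q4 at *
  generalize c 3 * y 4 + c 4 * y 3 = q5 at *
  have hd : d1 * d2 * d3 * d4 = (f1 * g1) * (f2 * g2) * (f3 * g3) * (f4 * g4) := by
    rw [h1, h2, h3, h4]
    ring
  rw [hd]
  ring

theorem flip1 (c y : Fin 5 → K) : ∃ r, RR c y * RR (Function.update c 1 (-c 1)) y = r * r * DD c y 1 := by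
  refine ⟨(c 0 * y 2 + c 2 * y 0) * (c 0 * y 3 + c 3 * y 0) * (c 0 * y 4 + c 4 * y 0) * (c 2 * y 3 + c 3 * y 2) * (c 2 * y 4 + c 4 * y 2) * (c 3 * y 4 + c 4 * y 3), ?_⟩
  have hu : ∀ j, j ≠ 1 → Function.update c 1 (-c 1) j = c j := fun j hj => Function.update_of_ne hj _ _
  have h0 : (c 0 * y 1 + c 1 * y 0) * (c 0 * y 1 + -c 1 * y 0) = -(c 1 ^ 2 * y 0 ^ 2 - c 0 ^ 2 * y 1 ^ 2) := by ring
  have h2 : (c 1 * y 2 + c 2 * y 1) * (-c 1 * y 2 + c 2 * y 1) = -(c 1 ^ 2 * y 2 ^ 2 - c 2 ^ 2 * y 1 ^ 2) := by ring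
  have h3 : (c 1 * y 3 + c 3 * y 1) * (-c 1 * y 3 + c 3 * y 1) = -(c 1 ^ 2 * y 3 ^ 2 - c 3 ^ 2 * y 1 ^ 2) := by ring
  have h4 : (c 1 * y 4 + c 4 * y 1) * (-c 1 * y 4 + c 4 * y 1) = -(c 1 ^ 2 * y 4 ^ 2 - c 4 ^ 2 * y 1 ^ 2) := by ring
  simp only [RR, DD, erase_prod, hu 0 (by decide), hu 2 (by decide), hu 3 (by decide), hu 4 (by decide), Function.update_self, Matrix.cons_val_zero, Matrix.cons_val_one, Matrix.cons_val]
  generalize c 0 * y 1 + c 1 * y 0 = f0 at *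
  generalize c 0 * y 1 + -c 1 * y 0 = g0 at *
  generalize c 1 ^ 2 * y 0 ^ 2 - c 0 ^ 2 * y 1 ^ 2 = d0 at *
  generalize c 1 * y 2 + c 2 * y 1 = f2 at *
  generalize -c 1 * y 2 + c 2 * y 1 = g2 at *
  generalize c 1 ^ 2 * y 2 ^ 2 - c 2 ^ 2 * y 1 ^ 2 = d2 at *
  generalize c 1 * y 3 + c 3 * y 1 = f3 at *
  generalize -c 1 * y 3 + c 3 * y 1 = g3 at *
  generalize c 1 ^ 2 * y 3 ^ 2 - c 3 ^ 2 * y 1 ^ 2 = d3 at *
  generalize c 1 * y 4 + c 4 * y 1 = f4 at *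
  generalize -c 1 * y 4 + c 4 * y 1 = g4 at *
  generalize c 1 ^ 2 * y 4 ^ 2 - c 4 ^ 2 * y 1 ^ 2 = d4 at *
  generalize c 0 * y 2 + c 2 * y 0 = q0 at *
  generalize c 0 * y 3 + c 3 * y 0 = q1 at *
  generalize c 0 * y 4 + c 4 * y 0 = q2 at *
  generalize c 2 * y 3 + c 3 * y 2 = q3 at *
  generalize c 2 * y 4 + c 4 * y 2 = q4 at *
  generalize c 3 * y 4 + c 4 * y 3 = q5 at *
  have hd : d0 * d2 * d3 * d4 = (f0 * g0) * (f2 * g2) * (f3 * g3) * (f4 * g4) := by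
    rw [h0, h2, h3, h4]
    ring
  rw [hd]
  ring

theorem flip2 (c y : Fin 5 → K) : ∃ r, RR c y * RR (Function.update c 2 (-c 2)) y = r * r * DD c y 2 := by
  refine ⟨(c 0 * y 1 + c 1 * y 0) * (c 0 * y 3 + c 3 * y 0) * (c 0 * y 4 + c 4 * y 0) * (c 1 * y 3 + c 3 * y 1) * (c 1 * y 4 + c 4 * y 1) * (c 3 * y 4 + c 4 * y 3), ?_⟩
  have hu : ∀ j, j ≠ 2 → Function.update c 2 (-c 2) j = c j := fun j hj => Function.update_of_ne hj _ _
  have h0 : (c 0 * y 2 + c 2 * y 0) * (c 0 * y 2 + -c 2 * y 0) = -(c 2 ^ 2 * y 0 ^ 2 - c 0 ^ 2 * y 2 ^ 2) := by ring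
  have h1 : (c 1 * y 2 + c 2 * y 1) * (c 1 * y 2 + -c 2 * y 1) = -(c 2 ^ 2 * y 1 ^ 2 - c 1 ^ 2 * y 2 ^ 2) := by ring
  have h3 : (c 2 * y 3 + c 3 * y 2) * (-c 2 * y 3 + c 3 * y 2) = -(c 2 ^ 2 * y 3 ^ 2 - c 3 ^ 2 * y 2 ^ 2) := by ring
  have h4 : (c 2 * y 4 + c 4 * y 2) * (-c 2 * y 4 + c 4 * y 2) = -(c 2 ^ 2 * y 4 ^ 2 - c 4 ^ 2 * y 2 ^ 2) := by ring
  simp only [RR, DD, erase_prod, hu 0 (by decide), hu 1 (by decide), hu 3 (by decide), hu 4 (by decide), Function.update_self, Matrix.cons_val_zero, Matrix.cons_val_one, Matrix.cons_val]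
  generalize c 0 * y 2 + c 2 * y 0 = f0 at *
  generalize c 0 * y 2 + -c 2 * y 0 = g0 at *
  generalize c 2 ^ 2 * y 0 ^ 2 - c 0 ^ 2 * y 2 ^ 2 = d0 at *
  generalize c 1 * y 2 + c 2 * y 1 = f1 at *
  generalize c 1 * y 2 + -c 2 * y 1 = g1 at *
  generalize c 2 ^ 2 * y 1 ^ 2 - c 1 ^ 2 * y 2 ^ 2 = d1 at *
  generalize c 2 * y 3 + c 3 * y 2 = f3 at *
  generalize -c 2 * y 3 + c 3 * y 2 = g3 at *
  generalize c 2 ^ 2 * y 3 ^ 2 - c 3 ^ 2 * y 2 ^ 2 = d3 at *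
  generalize c 2 * y 4 + c 4 * y 2 = f4 at *
  generalize -c 2 * y 4 + c 4 * y 2 = g4 at *
  generalize c 2 ^ 2 * y 4 ^ 2 - c 4 ^ 2 * y 2 ^ 2 = d4 at *
  generalize c 0 * y 1 + c 1 * y 0 = q0 at *
  generalize c 0 * y 3 + c 3 * y 0 = q1 at *
  generalize c 0 * y 4 + c 4 * y 0 = q2 at *
  generalize c 1 * y 3 + c 3 * y 1 = q3 at *
  generalize c 1 * y 4 + c 4 * y 1 = q4 at *
  generalize c 3 * y 4 + c 4 * y 3 = q5 at *
  have hd : d0 * d1 * d3 * d4 = (f0 * g0) * (f1 * g1) * (f3 * g3) * (f4 * g4) := by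
    rw [h0, h1, h3, h4]
    ring
  rw [hd]
  ring

theorem flip3 (c y : Fin 5 → K) : ∃ r, RR c y * RR (Function.update c 3 (-c 3)) y = r * r * DD c y 3 := by
  refine ⟨(c 0 * y 1 + c 1 * y 0) * (c 0 * y 2 + c 2 * y 0) * (c 0 * y 4 + c 4 * y 0) * (c 1 * y 2 + c 2 * y 1) * (c 1 * y 4 + c 4 * y 1) * (c 2 * y 4 + c 4 * y 2), ?_⟩
  have hu : ∀ j, j ≠ 3 → Function.update c 3 (-c 3) j = c j := fun j hj => Function.update_of_ne hj _ _
  have h0 : (c 0 * y 3 + c 3 * y 0) * (c 0 * y 3 + -c 3 * y 0) = -(c 3 ^ 2 * y 0 ^ 2 - c 0 ^ 2 * y 3 ^ 2) := by ring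
  have h1 : (c 1 * y 3 + c 3 * y 1) * (c 1 * y 3 + -c 3 * y 1) = -(c 3 ^ 2 * y 1 ^ 2 - c 1 ^ 2 * y 3 ^ 2) := by ring
  have h2 : (c 2 * y 3 + c 3 * y 2) * (c 2 * y 3 + -c 3 * y 2) = -(c 3 ^ 2 * y 2 ^ 2 - c 2 ^ 2 * y 3 ^ 2) := by ring
  have h4 : (c 3 * y 4 + c 4 * y 3) * (-c 3 * y 4 + c 4 * y 3) = -(c 3 ^ 2 * y 4 ^ 2 - c 4 ^ 2 * y 3 ^ 2) := by ring
  simp only [RR, DD, erase_prod, hu 0 (by decide), hu 1 (by decide), hu 2 (by decide), hu 4 (by decide), Function.update_self, Matrix.cons_val_zero, Matrix.cons_val_one, Matrix.cons_val]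
  generalize c 0 * y 3 + c 3 * y 0 = f0 at *
  generalize c 0 * y 3 + -c 3 * y 0 = g0 at *
  generalize c 3 ^ 2 * y 0 ^ 2 - c 0 ^ 2 * y 3 ^ 2 = d0 at *
  generalize c 1 * y 3 + c 3 * y 1 = f1 at *
  generalize c 1 * y 3 + -c 3 * y 1 = g1 at *
  generalize c 3 ^ 2 * y 1 ^ 2 - c 1 ^ 2 * y 3 ^ 2 = d1 at *
  generalize c 2 * y 3 + c 3 * y 2 = f2 at *
  generalize c 2 * y 3 + -c 3 * y 2 = g2 at *
  generalize c 3 ^ 2 * y 2 ^ 2 - c 2 ^ 2 * y 3 ^ 2 = d2 at *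
  generalize c 3 * y 4 + c 4 * y 3 = f4 at *
  generalize -c 3 * y 4 + c 4 * y 3 = g4 at *
  generalize c 3 ^ 2 * y 4 ^ 2 - c 4 ^ 2 * y 3 ^ 2 = d4 at *
  generalize c 0 * y 1 + c 1 * y 0 = q0 at *
  generalize c 0 * y 2 + c 2 * y 0 = q1 at *
  generalize c 0 * y 4 + c 4 * y 0 = q2 at *
  generalize c 1 * y 2 + c 2 * y 1 = q3 at *
  generalize c 1 * y 4 + c 4 * y 1 = q4 at *
  generalize c 2 * y 4 + c 4 * y 2 = q5 at *
  have hd : d0 * d1 * d2 * d4 = (f0 * g0) * (f1 * g1) * (f2 * g2) * (f4 * g4) := by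
    rw [h0, h1, h2, h4]
    ring
  rw [hd]
  ring

theorem flip4 (c y : Fin 5 → K) : ∃ r, RR c y * RR (Function.update c 4 (-c 4)) y = r * r * DD c y 4 := by
  refine ⟨(c 0 * y 1 + c 1 * y 0) * (c 0 * y 2 + c 2 * y 0) * (c 0 * y 3 + c 3 * y 0) * (c 1 * y 2 + c 2 * y 1) * (c 1 * y 3 + c 3 * y 1) * (c 2 * y 3 + c 3 * y 2), ?_⟩
  have hu : ∀ j, j ≠ 4 → Function.update c 4 (-c 4) j = c j := fun j hj => Function.update_of_ne hj _ _
  have h0 : (c 0 * y 4 + c 4 * y 0) * (c 0 * y 4 + -c 4 * y 0) = -(c 4 ^ 2 * y 0 ^ 2 - c 0 ^ 2 * y 4 ^ 2) := by ring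
  have h1 : (c 1 * y 4 + c 4 * y 1) * (c 1 * y 4 + -c 4 * y 1) = -(c 4 ^ 2 * y 1 ^ 2 - c 1 ^ 2 * y 4 ^ 2) := by ring
  have h2 : (c 2 * y 4 + c 4 * y 2) * (c 2 * y 4 + -c 4 * y 2) = -(c 4 ^ 2 * y 2 ^ 2 - c 2 ^ 2 * y 4 ^ 2) := by ring
  have h3 : (c 3 * y 4 + c 4 * y 3) * (c 3 * y 4 + -c 4 * y 3) = -(c 4 ^ 2 * y 3 ^ 2 - c 3 ^ 2 * y 4 ^ 2) := by ring
  simp only [RR, DD, erase_prod, hu 0 (by decide), hu 1 (by decide), hu 2 (by decide), hu 3 (by decide), Function.update_self, Matrix.cons_val_zero, Matrix.cons_val_one, Matrix.cons_val]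
  generalize c 0 * y 4 + c 4 * y 0 = f0 at *
  generalize c 0 * y 4 + -c 4 * y 0 = g0 at *
  generalize c 4 ^ 2 * y 0 ^ 2 - c 0 ^ 2 * y 4 ^ 2 = d0 at *
  generalize c 1 * y 4 + c 4 * y 1 = f1 at *
  generalize c 1 * y 4 + -c 4 * y 1 = g1 at *
  generalize c 4 ^ 2 * y 1 ^ 2 - c 1 ^ 2 * y 4 ^ 2 = d1 at *
  generalize c 2 * y 4 + c 4 * y 2 = f2 at *
  generalize c 2 * y 4 + -c 4 * y 2 = g2 at *
  generalize c 4 ^ 2 * y 2 ^ 2 - c 2 ^ 2 * y 4 ^ 2 = d2 at *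
  generalize c 3 * y 4 + c 4 * y 3 = f3 at *
  generalize c 3 * y 4 + -c 4 * y 3 = g3 at *
  generalize c 4 ^ 2 * y 3 ^ 2 - c 3 ^ 2 * y 4 ^ 2 = d3 at *
  generalize c 0 * y 1 + c 1 * y 0 = q0 at *
  generalize c 0 * y 2 + c 2 * y 0 = q1 at *
  generalize c 0 * y 3 + c 3 * y 0 = q2 at *
  generalize c 1 * y 2 + c 2 * y 1 = q3 at *
  generalize c 1 * y 3 + c 3 * y 1 = q4 at *
  generalize c 2 * y 3 + c 3 * y 2 = q5 at *
  have hd : d0 * d1 * d2 * d3 = (f0 * g0) * (f1 * g1) * (f2 * g2) * (f3 * g3) := by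
    rw [h0, h1, h2, h3]
    ring
  rw [hd]
  ring

theorem flip (c y : Fin 5 → K) (i : Fin 5) :
    ∃ r, RR c y * RR (Function.update c i (-c i)) y = r * r * DD c y i := by
  fin_cases i
  · exact flip0 c y
  · exact flip1 c y
  · exact flip2 c y
  · exact flip3 c y
  · exact flip4 c y

theorem DD_congr {x c y : Fin 5 → K} (h : c ^ 2 = x ^ 2) (i : Fin 5) : DD c y i = DD x y i := by
  have h1 : ∀ j, c j ^ 2 = x j ^ 2 := fun j => congrFun h j
  simp only [DD, h1]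

theorem ND_sg {x y : Fin 5 → K} (h : ND x y) (s : Fin 5 → ℤˣ) : ND (sg s x) y := by
  intro i j hij
  have h1 : ∀ j, sg s x j ^ 2 = x j ^ 2 := fun j => congrFun (sg_sq s x) j
  rw [h1, h1]
  exact h i j hij

theorem fac_ne {c y : Fin 5 → K} (h : ND c y) (a b : Fin 5) (hab : a ≠ b) :
    c a * y b + c b * y a ≠ 0 := by
  intro h0
  apply h a b hab
  linear_combination (c a * y b - c b * y a) * h0

theorem RR_ne {c y : Fin 5 → K} (h : ND c y) : RR c y ≠ 0 := by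
  rw [RR]
  refine neg_ne_zero.2 ?_
  repeat' apply mul_ne_zero
  all_goals exact fac_ne h _ _ (by decide)

theorem DD_ne {x y : Fin 5 → K} (h : ND x y) (i : Fin 5) : DD x y i ≠ 0 := by
  rw [DD, Finset.prod_ne_zero_iff]
  intro j hj
  exact sub_ne_zero.2 (h i j (Ne.symm (mem_erase.1 hj).1))

theorem prod_DD (x y : Fin 5 → K) : ∃ r, ∏ i, DD x y i = r * r := by
  refine ⟨(x 0 ^ 2 * y 1 ^ 2 - x 1 ^ 2 * y 0 ^ 2) * (x 0 ^ 2 * y 2 ^ 2 - x 2 ^ 2 * y 0 ^ 2) *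
    (x 0 ^ 2 * y 3 ^ 2 - x 3 ^ 2 * y 0 ^ 2) * (x 0 ^ 2 * y 4 ^ 2 - x 4 ^ 2 * y 0 ^ 2) *
    (x 1 ^ 2 * y 2 ^ 2 - x 2 ^ 2 * y 1 ^ 2) * (x 1 ^ 2 * y 3 ^ 2 - x 3 ^ 2 * y 1 ^ 2) *
    (x 1 ^ 2 * y 4 ^ 2 - x 4 ^ 2 * y 1 ^ 2) * (x 2 ^ 2 * y 3 ^ 2 - x 3 ^ 2 * y 2 ^ 2) *
    (x 2 ^ 2 * y 4 ^ 2 - x 4 ^ 2 * y 2 ^ 2) * (x 3 ^ 2 * y 4 ^ 2 - x 4 ^ 2 * y 3 ^ 2), ?_⟩
  have hs : ∀ a b, x a ^ 2 * y b ^ 2 - x b ^ 2 * y a ^ 2 =
      -(x b ^ 2 * y a ^ 2 - x a ^ 2 * y b ^ 2) := fun a b => by ring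
  simp only [DD, erase_prod, Fin.prod_univ_five, Matrix.cons_val_zero, Matrix.cons_val_one,
    Matrix.cons_val]
  rw [hs 1 0, hs 2 0, hs 2 1, hs 3 0, hs 3 1, hs 3 2, hs 4 0, hs 4 1, hs 4 2, hs 4 3]
  generalize x 0 ^ 2 * y 1 ^ 2 - x 1 ^ 2 * y 0 ^ 2 = a1
  generalize x 0 ^ 2 * y 2 ^ 2 - x 2 ^ 2 * y 0 ^ 2 = a2
  generalize x 0 ^ 2 * y 3 ^ 2 - x 3 ^ 2 * y 0 ^ 2 = a3
  generalize x 0 ^ 2 * y 4 ^ 2 - x 4 ^ 2 * y 0 ^ 2 = a4
  generalize x 1 ^ 2 * y 2 ^ 2 - x 2 ^ 2 * y 1 ^ 2 = a5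
  generalize x 1 ^ 2 * y 3 ^ 2 - x 3 ^ 2 * y 1 ^ 2 = a6
  generalize x 1 ^ 2 * y 4 ^ 2 - x 4 ^ 2 * y 1 ^ 2 = a7
  generalize x 2 ^ 2 * y 3 ^ 2 - x 3 ^ 2 * y 2 ^ 2 = a8
  generalize x 2 ^ 2 * y 4 ^ 2 - x 4 ^ 2 * y 2 ^ 2 = a9
  generalize x 3 ^ 2 * y 4 ^ 2 - x 4 ^ 2 * y 3 ^ 2 = a10
  ring

theorem sg_update (s : Fin 5 → ℤˣ) (x : Fin 5 → K) (i : Fin 5) :
    sg (Function.update s i (-s i)) x = Function.update (sg s x) i (-(sg s x i)) := by
  funext j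
  by_cases hj : j = i
  · subst hj
    simp [sg]
  · simp [sg, Function.update_of_ne hj]

end

section
variable {k : Type} [Field k] [Fintype k] [DecidableEq k]

theorem chi_flip (x y : Fin 5 → k) (h : ND x y) (s : Fin 5 → ℤˣ) (i : Fin 5) :
    quadraticChar k (RR (sg (Function.update s i (-s i)) x) y) =
      quadraticChar k (RR (sg s x) y) * quadraticChar k (DD x y i) := by
  obtain ⟨r, hr⟩ := flip (sg s x) y i
  rw [← sg_update, DD_congr (sg_sq s x)] at hr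
  have h1 := RR_ne (ND_sg h s)
  have h2 := RR_ne (ND_sg h (Function.update s i (-s i)))
  have h3 := DD_ne h i
  have hr0 : r ≠ 0 := by
    rintro rfl
    rw [zero_mul, zero_mul] at hr
    exact mul_ne_zero h1 h2 hr
  have h4 := congrArg (quadraticChar k) hr
  rw [map_mul, map_mul, map_mul] at h4
  have e1 : quadraticChar k r * quadraticChar k r = 1 := by
    rw [← sq]
    exact quadraticChar_sq_one hr0
  have e2 : quadraticChar k (RR (sg s x) y) * quadraticChar k (RR (sg s x) y) = 1 := by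
    rw [← sq]
    exact quadraticChar_sq_one h1
  linear_combination (quadraticChar k (RR (sg s x) y)) * h4 -
    (quadraticChar k (RR (sg (Function.update s i (-s i)) x) y)) * e2 +
    (quadraticChar k (RR (sg s x) y)) * (quadraticChar k (DD x y i)) * e1

theorem fl_eq (s : Fin 5 → ℤˣ) (i : Fin 5) :
    s * Pi.mulSingle i (-1) = Function.update s i (-s i) := by
  funext j
  by_cases hj : j = i
  · subst hj
    simp
  · simp [hj]

theorem card_Sg : Fintype.card Sg = 16 := by decide +kernel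

end

theorem chi : S_chi := by
  classical
  intro k _ _ h2 x y hnd
  have hflip : ∀ (s : Fin 5 → ℤˣ) (i : Fin 5),
      quadraticChar k (RR (sg (s * Pi.mulSingle i (-1)) x) y) =
        quadraticChar k (RR (sg s x) y) * quadraticChar k (DD x y i) := by
    intro s i
    rw [fl_eq]
    exact chi_flip x y hnd s i
  have hD1 : ∀ i, quadraticChar k (DD x y i) = 1 ↔ IsSquare (DD x y i) := fun i =>
    quadraticChar_one_iff_isSquare (DD_ne hnd i)
  have hDn : ∀ i, quadraticChar k (DD x y i) = -1 ↔ ¬ IsSquare (DD x y i) := fun i =>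
    quadraticChar_neg_one_iff_not_isSquare
  have hR1 : ∀ s : Fin 5 → ℤˣ, quadraticChar k (RR (sg s x) y) = 1 ↔ IsSquare (RR (sg s x) y) :=
    fun s => quadraticChar_one_iff_isSquare (RR_ne (ND_sg hnd s))
  have hRn : ∀ s : Fin 5 → ℤˣ, quadraticChar k (RR (sg s x) y) = -1 ↔
      ¬ IsSquare (RR (sg s x) y) := fun s => quadraticChar_neg_one_iff_not_isSquare
  by_cases hall : ∀ i, IsSquare (DD x y i)
  · left
    refine ⟨hall, ?_⟩
    have hE : ∀ (A : Finset (Fin 5)) (s : Fin 5 → ℤˣ), (∀ i, i ∉ A → s i = 1) →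
        quadraticChar k (RR (sg s x) y) = quadraticChar k (RR (sg 1 x) y) := by
      intro A
      induction A using Finset.induction_on with
      | empty =>
        intro s hs
        have : s = 1 := funext fun i => hs i (Finset.notMem_empty i)
        rw [this]
      | insert a A ha ih =>
        intro s hs
        rcases Int.units_eq_one_or (s a) with h1 | h1
        · refine ih s fun i hi => ?_
          by_cases hia : i = a
          · rw [hia, h1]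
          · exact hs i fun h => (Finset.mem_insert.1 h).elim hia hi
        · have h3 := hflip s a
          rw [(hD1 a).2 (hall a), mul_one] at h3
          rw [← h3]
          refine ih _ fun i hi => ?_
          by_cases hia : i = a
          · rw [hia, Pi.mul_apply, h1, Pi.mulSingle_eq_same]
            rfl
          · rw [Pi.mul_apply, Pi.mulSingle_eq_of_ne hia, mul_one]
            exact hs i fun h => (Finset.mem_insert.1 h).elim hia hi
    by_cases h1 : IsSquare (RR (sg 1 x) y)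
    · left
      intro s
      rw [← hR1, hE univ s.1 (fun i hi => absurd (mem_univ i) hi), hR1]
      exact h1
    · right
      intro s
      rw [← hR1, hE univ s.1 (fun i hi => absurd (mem_univ i) hi), hR1]
      exact h1
  · right
    -- the number of nonsquares is even
    have heven : Even (Nat.card {i // ¬ IsSquare (DD x y i)}) := by
      obtain ⟨r, hr⟩ := prod_DD x y
      have h3 := congrArg (quadraticChar k) hr
      have hr0 : r ≠ 0 := by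
        rintro rfl
        rw [mul_zero, Finset.prod_eq_zero_iff] at hr
        obtain ⟨i, -, hi⟩ := hr
        exact DD_ne hnd i hi
      rw [map_prod, map_mul, ← sq, quadraticChar_sq_one hr0] at h3
      have h4 : ∀ i, quadraticChar k (DD x y i) = if ¬ IsSquare (DD x y i) then -1 else 1 := by
        intro i
        by_cases h : IsSquare (DD x y i)
        · rw [if_neg (not_not.2 h)]
          exact (hD1 i).2 h
        · rw [if_pos h]
          exact (hDn i).2 h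
      simp only [h4] at h3
      rw [Finset.prod_ite, Finset.prod_const, Finset.prod_const_one, mul_one] at h3
      rw [Nat.card_eq_fintype_card, Fintype.card_subtype]
      rcases Nat.even_or_odd (Finset.univ.filter fun i => ¬ IsSquare (DD x y i)).card with h5 | h5
      · exact h5
      · rw [h5.neg_one_pow] at h3
        norm_num at h3
    have hle : Nat.card {i // ¬ IsSquare (DD x y i)} ≤ 5 := by
      rw [Nat.card_eq_fintype_card]
      have := Fintype.card_subtype_le fun i => ¬ IsSquare (DD x y i)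
      rwa [Fintype.card_fin] at this
    have hpos : 0 < Nat.card {i // ¬ IsSquare (DD x y i)} := by
      push Not at hall
      obtain ⟨i, hi⟩ := hall
      rw [Nat.card_eq_fintype_card]
      exact Fintype.card_pos_iff.2 ⟨⟨i, hi⟩⟩
    obtain ⟨i₀, hi₀⟩ := not_forall.1 hall
    obtain ⟨j₀, hj₀⟩ : ∃ j, IsSquare (DD x y j) := by
      by_contra hcon
      push Not at hcon
      have h3 : Nat.card {i // ¬ IsSquare (DD x y i)} = 5 := by
        rw [Nat.card_eq_fintype_card, Fintype.card_subtype,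
          Finset.filter_true_of_mem (fun i _ => hcon i), Finset.card_univ, Fintype.card_fin]
      rw [h3] at heven
      exact absurd heven (by decide)
    refine ⟨?_, ?_⟩
    · obtain ⟨m, hm⟩ := heven
      omega
    · -- the involution
      have hprod : ∀ i : Fin 5, ∏ j, (Pi.mulSingle i (-1) : Fin 5 → ℤˣ) j = -1 := by
        intro i
        rw [Finset.prod_pi_mulSingle']
        simp
      let φ : Sg → Sg := fun s => ⟨s.1 * Pi.mulSingle i₀ (-1) * Pi.mulSingle j₀ (-1), by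
        simp only [Pi.mul_apply, Finset.prod_mul_distrib, hprod, s.2]
        decide⟩
      have hφφ : ∀ s, φ (φ s) = s := by
        intro s
        apply Subtype.ext
        funext j
        simp only [φ, Pi.mul_apply]
        have key : ∀ a b c : ℤˣ, c * a * b * a * b = c := by decide
        exact key _ _ _
      have hφ : ∀ s, quadraticChar k (RR (sg (φ s).1 x) y) =
          - quadraticChar k (RR (sg s.1 x) y) := by
        intro s
        show quadraticChar k (RR (sg (s.1 * Pi.mulSingle i₀ (-1) * Pi.mulSingle j₀ (-1)) x) y) = _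
        rw [hflip, hflip, (hDn i₀).2 hi₀, (hD1 j₀).2 hj₀]
        ring
      have hiff : ∀ s, ¬ IsSquare (RR (sg s.1 x) y) ↔ IsSquare (RR (sg (φ s).1 x) y) := by
        intro s
        rw [← hRn, ← hR1, hφ]
        constructor
        · intro h
          rw [h]
          rfl
        · intro h
          linarith
      have hcard : Fintype.card {s : Sg // ¬ IsSquare (RR (sg s.1 x) y)} =
          Fintype.card {s : Sg // IsSquare (RR (sg s.1 x) y)} := by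
        refine Fintype.card_congr
          { toFun := fun s => ⟨φ s.1, (hiff s.1).1 s.2⟩
            invFun := fun s => ⟨φ s.1, (hiff (φ s.1)).2 (by rw [hφφ]; exact s.2)⟩
            left_inv := fun s => Subtype.ext (hφφ s.1)
            right_inv := fun s => Subtype.ext (hφφ s.1) }
      have hcompl := Fintype.card_subtype_compl fun s : Sg => IsSquare (RR (sg s.1 x) y)
      have hle' := Fintype.card_subtype_le fun s : Sg => IsSquare (RR (sg s.1 x) y)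
      rw [card_Sg] at hcompl hle'
      rw [Nat.card_eq_fintype_card]
      have e1 : Fintype.card {s : Sg // ¬ IsSquare (RR (sg s.1 x) y)} =
        16 - Fintype.card {s : Sg // IsSquare (RR (sg s.1 x) y)} := by
        rw [← hcompl]
      omega

end Pool.Agent.Q285.HE
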