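import Pool.Agent.Q52.HE.Stm

/-!
# Hyperbolic and elliptic lines on split cubic surfaces: the 27 lines and smoothness of `S(x, y)`
-/

namespace Pool.Agent.Q285.HE

open Finset Pool.Agent.Q52.HE

section
variable {K : Type} [Field K]

theorem cubN (β γ g3 g2 g1 g0 : K) (p : Fin 4 → K) : cub (arrN β γ g3 g2 g1 g0) p =
    p 2 * p 0 ^ 2 - p 3 * p 1 ^ 2 + 2 * β * p 3 ^ 2 * p 0 + 2 * γ * p 2 ^ 2 * p 1 +
      g3 * p 2 ^ 3 + g2 * p 2 ^ 2 * p 3 + g1 * p 2 * p 3 ^ 2 + g0 * p 3 ^ 3 := by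
  simp only [cub, arrN, Fin.sum_univ_four, Matrix.cons_val_zero, Matrix.cons_val_one,
    Matrix.cons_val, Pi.zero_apply]
  ring

theorem gradN (β γ g3 g2 g1 g0 : K) (p : Fin 4 → K) : grad (arrN β γ g3 g2 g1 g0) p =
    ![2 * p 2 * p 0 + 2 * β * p 3 ^ 2, -2 * p 3 * p 1 + 2 * γ * p 2 ^ 2,
      p 0 ^ 2 + 4 * γ * p 2 * p 1 + 3 * g3 * p 2 ^ 2 + 2 * g2 * p 2 * p 3 + g1 * p 3 ^ 2,
      -p 1 ^ 2 + 4 * β * p 3 * p 0 + g2 * p 2 ^ 2 + 2 * g1 * p 2 * p 3 + 3 * g0 * p 3 ^ 2] := by
  funext m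
  fin_cases m <;>
  · simp [grad, arrN, Fin.sum_univ_four]
    ring

theorem erase_prod (f : Fin 5 → K) (i : Fin 5) : (∏ k ∈ univ.erase i, f k) =
    ![f 1 * f 2 * f 3 * f 4, f 0 * f 2 * f 3 * f 4, f 0 * f 1 * f 3 * f 4, f 0 * f 1 * f 2 * f 4,
      f 0 * f 1 * f 2 * f 3] i := by
  have h0 : (univ.erase (0 : Fin 5)) = {1, 2, 3, 4} := by decide
  have h1 : (univ.erase (1 : Fin 5)) = {0, 2, 3, 4} := by decide
  have h2 : (univ.erase (2 : Fin 5)) = {0, 1, 3, 4} := by decide
  have h3 : (univ.erase (3 : Fin 5)) = {0, 1, 2, 4} := by decide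
  have h4 : (univ.erase (4 : Fin 5)) = {0, 1, 2, 3} := by decide
  fin_cases i
  · simp [h0]; ring
  · simp [h1]; ring
  · simp [h2]; ring
  · simp [h3]; ring
  · simp [h4]; ring

/-- a common zero of a product of linear forms and its derivative -/
theorem double_zero (x y : Fin 5 → K) (hnd : ND x y) (z w : K) (hzw : ¬ (z = 0 ∧ w = 0))
    (h0 : ∏ i, (y i ^ 2 * z - x i ^ 2 * w) = 0)
    (hz : ∑ i, y i ^ 2 * ∏ k ∈ univ.erase i, (y k ^ 2 * z - x k ^ 2 * w) = 0)
    (hw : ∑ i, x i ^ 2 * ∏ k ∈ univ.erase i, (y k ^ 2 * z - x k ^ 2 * w) = 0) : False := by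
  obtain ⟨i, -, hi⟩ := Finset.prod_eq_zero_iff.1 h0
  have hsum : ∀ c : Fin 5 → K, ∑ j, c j * ∏ k ∈ univ.erase j, (y k ^ 2 * z - x k ^ 2 * w) =
      c i * ∏ k ∈ univ.erase i, (y k ^ 2 * z - x k ^ 2 * w) := by
    intro c
    refine Finset.sum_eq_single i (fun j _ hj => ?_) fun h => absurd (mem_univ i) h
    rw [Finset.prod_eq_zero (mem_erase.2 ⟨Ne.symm hj, mem_univ i⟩) hi, mul_zero]
  rw [hsum] at hz hw
  have hP : ∏ k ∈ univ.erase i, (y k ^ 2 * z - x k ^ 2 * w) = 0 := by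
    by_contra hP
    have hy := (mul_eq_zero.1 hz).resolve_right hP
    have hx := (mul_eq_zero.1 hw).resolve_right hP
    have hj : ∀ i : Fin 5, ∃ j : Fin 5, i ≠ j := by decide
    obtain ⟨j, hj⟩ := hj i
    apply hnd i j hj
    rw [hx, hy, zero_mul, mul_zero]
  obtain ⟨k, hk, hk0⟩ := Finset.prod_eq_zero_iff.1 hP
  have hki : k ≠ i := (mem_erase.1 hk).1
  apply hnd i k (Ne.symm hki)
  by_contra hne
  have hd : x i ^ 2 * y k ^ 2 - x k ^ 2 * y i ^ 2 ≠ 0 := sub_ne_zero.2 hne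
  apply hzw
  constructor
  · apply (mul_eq_zero.1 _).resolve_left hd
    linear_combination (x i ^ 2) * hk0 - (x k ^ 2) * hi
  · apply (mul_eq_zero.1 _).resolve_left hd
    linear_combination (y i ^ 2) * hk0 - (y k ^ 2) * hi

theorem smoothS (h2 : (2 : K) ≠ 0) (x y : Fin 5 → K) (hnd : ND x y) : Smooth (arrS x y) := by
  intro p hp hc hg
  rw [arrS, gradN] at hg
  rw [arrS, cubN] at hc
  have e0 := congrFun hg 0
  have e1 := congrFun hg 1
  have e2 := congrFun hg 2
  have e3 := congrFun hg 3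
  simp only [Matrix.cons_val_zero, Matrix.cons_val_one, Matrix.cons_val, Pi.zero_apply] at e0 e1 e2 e3
  have hU : p 2 * p 0 + pr x * p 3 ^ 2 = 0 := by
    apply (mul_eq_zero.1 _).resolve_left h2
    linear_combination e0
  have hV : p 3 * p 1 + pr y * p 2 ^ 2 = 0 := by
    apply (mul_eq_zero.1 _).resolve_left h2
    linear_combination -e1
  generalize hs : p 0 = s at *
  generalize ht : p 1 = t at *
  generalize hz : p 2 = z at *
  generalize hw : p 3 = w at *
  by_cases hzw : z = 0 ∧ w = 0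
  · obtain ⟨rfl, rfl⟩ := hzw
    have h1 : s = 0 := by
      have : s ^ 2 = 0 := by linear_combination e2
      exact pow_eq_zero_iff (two_ne_zero) |>.1 this
    have h3 : t = 0 := by
      have : t ^ 2 = 0 := by linear_combination -e3
      exact pow_eq_zero_iff (two_ne_zero) |>.1 this
    apply hp
    funext i
    fin_cases i
    · exact hs.trans h1
    · exact ht.trans h3
    · exact hz
    · exact hw
  · refine double_zero x y hnd z w hzw ?_ ?_ ?_
    · rw [Fin.prod_univ_five]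
      simp only [pc, pr, Pi.pow_apply, Matrix.cons_val_zero, Matrix.cons_val_one, Matrix.cons_val]
        at *
      linear_combination (z * w) * hc -
        (w * (z * s + x 0 * x 1 * x 2 * x 3 * x 4 * w ^ 2)) * hU +
        (z * (w * t + y 0 * y 1 * y 2 * y 3 * y 4 * z ^ 2)) * hV
    · simp only [erase_prod, Fin.sum_univ_five, Matrix.cons_val_zero, Matrix.cons_val_one,
        Matrix.cons_val]
      simp only [pc, pr, Pi.pow_apply, Matrix.cons_val_zero, Matrix.cons_val_one, Matrix.cons_val]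
        at *
      linear_combination w * hc + (z * w) * e2 - (2 * w * s) * hU +
        (w * t + 5 * (y 0 * y 1 * y 2 * y 3 * y 4) * z ^ 2) * hV
    · simp only [erase_prod, Fin.sum_univ_five, Matrix.cons_val_zero, Matrix.cons_val_one,
        Matrix.cons_val]
      simp only [pc, pr, Pi.pow_apply, Matrix.cons_val_zero, Matrix.cons_val_one, Matrix.cons_val]
        at *
      linear_combination (-z) * hc - (z * w) * e3 - (2 * z * t) * hV +
        (z * s + 5 * (x 0 * x 1 * x 2 * x 3 * x 4) * w ^ 2) * hU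

theorem finrank_pair (u v : Fin 4 → K) (h : LinearIndependent K ![u, v]) :
    Module.finrank K (Submodule.span K {u, v}) = 2 := by
  have h1 := finrank_span_eq_card h
  have h2 : Set.range ![u, v] = {u, v} := by
    simp only [Matrix.range_cons, Matrix.range_empty, Set.union_empty]
    rfl
  rw [h2, Fintype.card_fin] at h1
  exact h1

theorem memLines (a : Arr K) (u v : Fin 4 → K) (h : LinearIndependent K ![u, v])
    (h0 : ∀ α β : K, cub a (α • u + β • v) = 0) : Submodule.span K {u, v} ∈ Lines a := by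
  refine ⟨finrank_pair u v h, fun p hp => ?_⟩
  obtain ⟨α, β, rfl⟩ := Submodule.mem_span_pair.1 hp
  exact h0 α β

theorem ell_mem (x y : Fin 5 → K) : ell ∈ Lines (arrS x y) := by
  refine memLines _ _ _ ?_ fun α β => ?_
  · rw [LinearIndependent.pair_iff]
    intro α β h
    have h0 := congrFun h 0
    have h1 := congrFun h 1
    simp at h0 h1
    exact ⟨h0, h1⟩
  · rw [arrS, cubN]
    simp

theorem lineL_mem (x y : Fin 5 → K) (hnd : ND x y) (i : Fin 5) (e : K) (he : e = 1 ∨ e = -1) :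
    lineL x y i e ∈ Lines (arrS x y) := by
  have hj : ∀ i : Fin 5, ∃ j : Fin 5, i ≠ j := by decide
  obtain ⟨j, hj⟩ := hj i
  have hxy : ¬ (x i = 0 ∧ y i = 0) := by
    rintro ⟨h1, h2⟩
    apply hnd i j hj
    rw [h1, h2]
    ring
  have he0 : e ≠ 0 := by
    rcases he with rfl | rfl
    · exact one_ne_zero
    · exact neg_ne_zero.2 one_ne_zero
  refine memLines _ _ _ ?_ fun α β => ?_
  · rw [LinearIndependent.pair_iff]
    intro α β h
    have h0 := congrFun h 0
    have h1 := congrFun h 1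
    have h2 := congrFun h 2
    have h3 := congrFun h 3
    simp only [Pi.add_apply, Pi.smul_apply, Matrix.cons_val_zero, Matrix.cons_val_one,
      Matrix.cons_val, smul_eq_mul, mul_zero, zero_add, Pi.zero_apply] at h0 h1 h2 h3
    have hβ : β = 0 := by
      by_contra hβ
      apply hxy
      exact ⟨pow_eq_zero_iff two_ne_zero |>.1 ((mul_eq_zero.1 h2).resolve_left hβ),
        pow_eq_zero_iff two_ne_zero |>.1 ((mul_eq_zero.1 h3).resolve_left hβ)⟩
    rw [hβ, zero_mul, add_zero] at h0 h1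
    refine ⟨?_, hβ⟩
    by_contra hα
    apply hxy
    refine ⟨?_, (mul_eq_zero.1 h0).resolve_left hα⟩
    have h4 := (mul_eq_zero.1 h1).resolve_left hα
    exact (mul_eq_zero.1 h4).resolve_left (neg_ne_zero.2 he0)
  · rw [arrS, cubN]
    rcases he with rfl | rfl <;> fin_cases i <;>
    · simp only [others, erase_prod, pc, pr, Pi.pow_apply, Pi.add_apply, Pi.smul_apply,
        Matrix.cons_val_zero, Matrix.cons_val_one, Matrix.cons_val, smul_eq_mul, Fin.zero_eta,
        Fin.mk_one, Fin.reduceFinMk]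
      ring

theorem arrS_congr {x c y : Fin 5 → K} (h1 : c ^ 2 = x ^ 2) (h2 : pr c = pr x) :
    arrS x y = arrS c y := by
  rw [arrS, arrS, h1, h2]

theorem lineM_mem' (c y : Fin 5 → K) : lineM c y ∈ Lines (arrS c y) := by
  refine memLines _ _ _ ?_ fun α β => ?_
  · rw [LinearIndependent.pair_iff]
    intro α β h
    have h2 := congrFun h 2
    have h3 := congrFun h 3
    simp at h2 h3
    exact ⟨h2, h3⟩
  · rw [arrS, cubN]
    simp only [pc, pr, Pi.pow_apply, Pi.add_apply, Pi.smul_apply,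
        Matrix.cons_val_zero, Matrix.cons_val_one, Matrix.cons_val, smul_eq_mul]
    ring

theorem sg_sq (s : Fin 5 → ℤˣ) (x : Fin 5 → K) : (sg s x) ^ 2 = x ^ 2 := by
  funext i
  rw [Pi.pow_apply, Pi.pow_apply, sg, mul_pow]
  rcases Int.units_eq_one_or (s i) with h | h <;> simp [h]

theorem sg_pr (s : Sg) (x : Fin 5 → K) : pr (sg s.1 x) = pr x := by
  have h1 : (((s.1 0 : ℤ) : K) * ((s.1 1 : ℤ) : K) * ((s.1 2 : ℤ) : K) * ((s.1 3 : ℤ) : K) *
      ((s.1 4 : ℤ) : K)) = 1 := by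
    have h2 := s.2
    rw [Fin.prod_univ_five] at h2
    have h3 := congrArg (fun u : ℤˣ => (((u : ℤ) : ℤ) : K)) h2
    push_cast at h3
    simpa using h3
  simp only [pr, sg]
  linear_combination (x 0 * x 1 * x 2 * x 3 * x 4) * h1

theorem mem : S_mem := by
  intro K _ h2 x y hnd
  refine ⟨smoothS h2 x y hnd, ell_mem x y, lineL_mem x y hnd, fun s => ?_⟩
  rw [arrS_congr (y := y) (sg_sq s.1 x) (sg_pr s x)]
  exact lineM_mem' _ _

end

end Pool.Agent.Q285.HE
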