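import Pool.Agent.Q52.HE.Stm

/-!
# Hyperbolic and elliptic lines on split cubic surfaces: rational `x`, `y`
-/

namespace Pool.Agent.Q285.HE

open Finset Pool.Agent.Q52.HE

section
variable {K : Type} [Field K]

theorem indep_of_finrank (u v : Fin 4 → K)
    (h : Module.finrank K (Submodule.span K {u, v}) = 2) : LinearIndependent K ![u, v] := by
  rw [linearIndependent_iff_card_eq_finrank_span, Fintype.card_fin]
  have h2 : Set.range ![u, v] = {u, v} := by
    simp only [Matrix.range_cons, Matrix.range_empty, Set.union_empty]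
    rfl
  rw [h2, Set.finrank, h]

/-- the vectors of `lineL` -/
theorem mem_lineL {x y : Fin 5 → K} {i : Fin 5} {p : Fin 4 → K} (hp : p ∈ lineL x y i 1) :
    ∃ a b : K, p 0 = a * y i - b * (others y i * x i ^ 3) ∧
      p 1 = -(a * x i) - b * (others x i * y i ^ 3) ∧ p 2 = b * x i ^ 2 ∧ p 3 = b * y i ^ 2 := by
  obtain ⟨a, b, rfl⟩ := Submodule.mem_span_pair.1 hp
  refine ⟨a, b, ?_, ?_, ?_, ?_⟩ <;>
  · simp only [Pi.add_apply, Pi.smul_apply, Matrix.cons_val_zero, Matrix.cons_val_one,
      Matrix.cons_val, smul_eq_mul]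
    ring

/-- scaling factors -/
theorem exists_scale (F : Subfield K) {x y : Fin 5 → K} (hnd : ND x y) (i : Fin 5)
    (hW : DefinedOver F (lineL x y i 1)) (h2 : Module.finrank K (lineL x y i 1) = 2) :
    (∃ c : K, c ≠ 0 ∧ c * x i ∈ F ∧ c * y i ∈ F) ∧
    (x i = 0 → others x i * y i ∈ F) := by
  obtain ⟨u, v, hu, hv, huv⟩ := hW
  have hj : ∀ i : Fin 5, ∃ j : Fin 5, i ≠ j := by decide
  obtain ⟨j, hj⟩ := hj i
  have hxy : ¬ (x i = 0 ∧ y i = 0) := by
    rintro ⟨h1, h2⟩
    apply hnd i j hj
    rw [h1, h2]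
    ring
  have hind : LinearIndependent K ![u, v] := indep_of_finrank u v (by rw [← huv]; exact h2)
  rw [LinearIndependent.pair_iff] at hind
  have hmu : u ∈ lineL x y i 1 := by
    rw [huv]
    exact Submodule.subset_span (Or.inl rfl)
  have hmv : v ∈ lineL x y i 1 := by
    rw [huv]
    exact Submodule.subset_span (Or.inr rfl)
  obtain ⟨a, b, u0, u1, u2, u3⟩ := mem_lineL hmu
  obtain ⟨a', b', v0, v1, v2, v3⟩ := mem_lineL hmv
  refine ⟨?_, fun hx => ?_⟩
  · -- a rational combination with last two coordinates zero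
    have hex : ∃ α β : K, α ∈ F ∧ β ∈ F ∧ ¬ (α = 0 ∧ β = 0) ∧ α * b + β * b' = 0 := by
      by_cases hx : x i = 0
      · have hy : y i ^ 2 ≠ 0 := pow_ne_zero _ fun h => hxy ⟨hx, h⟩
        by_cases h0 : b = 0 ∧ b' = 0
        · exact ⟨1, 0, one_mem F, zero_mem F, fun h => one_ne_zero h.1, by rw [h0.1, h0.2]; ring⟩
        · refine ⟨v 3, -u 3, hv 3, neg_mem (hu 3), fun h => h0 ?_, by rw [u3, v3]; ring⟩
          rw [u3, v3, neg_eq_zero] at h
          exact ⟨(mul_eq_zero.1 h.2).resolve_right hy, (mul_eq_zero.1 h.1).resolve_right hy⟩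
      · have hx2 : x i ^ 2 ≠ 0 := pow_ne_zero _ hx
        by_cases h0 : b = 0 ∧ b' = 0
        · exact ⟨1, 0, one_mem F, zero_mem F, fun h => one_ne_zero h.1, by rw [h0.1, h0.2]; ring⟩
        · refine ⟨v 2, -u 2, hv 2, neg_mem (hu 2), fun h => h0 ?_, by rw [u2, v2]; ring⟩
          rw [u2, v2, neg_eq_zero] at h
          exact ⟨(mul_eq_zero.1 h.2).resolve_right hx2, (mul_eq_zero.1 h.1).resolve_right hx2⟩
    obtain ⟨α, β, hα, hβ, h0, hb⟩ := hex
    refine ⟨α * a + β * a', ?_, ?_, ?_⟩
    · intro hc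
      apply h0
      apply hind α β
      funext m
      fin_cases m
      · show α * u 0 + β * v 0 = 0
        rw [u0, v0]
        linear_combination (y i) * hc - (others y i * x i ^ 3) * hb
      · show α * u 1 + β * v 1 = 0
        rw [u1, v1]
        linear_combination (-x i) * hc - (others x i * y i ^ 3) * hb
      · show α * u 2 + β * v 2 = 0
        rw [u2, v2]
        linear_combination (x i ^ 2) * hb
      · show α * u 3 + β * v 3 = 0
        rw [u3, v3]
        linear_combination (y i ^ 2) * hb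
    · have h3 : (α * a + β * a') * x i = -(α * u 1 + β * v 1) := by
        rw [u1, v1]
        linear_combination (-(others x i * y i ^ 3)) * hb
      rw [h3]
      exact neg_mem (add_mem (mul_mem hα (hu 1)) (mul_mem hβ (hv 1)))
    · have h3 : (α * a + β * a') * y i = α * u 0 + β * v 0 := by
        rw [u0, v0]
        linear_combination (others y i * x i ^ 3) * hb
      rw [h3]
      exact add_mem (mul_mem hα (hu 0)) (mul_mem hβ (hv 0))
  · have hy : y i ^ 2 ≠ 0 := pow_ne_zero _ fun h => hxy ⟨hx, h⟩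
    have key : ∀ p : Fin 4 → K, RatV F p → ∀ a b : K,
        p 1 = -(a * x i) - b * (others x i * y i ^ 3) → p 3 = b * y i ^ 2 → b ≠ 0 →
        others x i * y i ∈ F := by
      intro p hp a b h1 h3 hb
      have h4 : others x i * y i = -(p 1 / p 3) := by
        have hy' : y i ≠ 0 := fun h => hxy ⟨hx, h⟩
        rw [h1, h3, hx]
        field_simp
        ring
      rw [h4]
      exact neg_mem (div_mem (hp 1) (hp 3))
    by_cases hb : b = 0
    · by_cases hb' : b' = 0
      · exfalso
        rw [hb] at u0 u1 u2 u3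
        rw [hb'] at v0 v1 v2 v3
        rw [hx] at u0 u1 v0 v1
        by_cases ha : a = 0
        · refine one_ne_zero (hind 1 0 ?_).1
          funext m
          fin_cases m
          · show 1 * u 0 + 0 * v 0 = 0
            rw [u0, ha]; ring
          · show 1 * u 1 + 0 * v 1 = 0
            rw [u1]; ring
          · show 1 * u 2 + 0 * v 2 = 0
            rw [u2]; ring
          · show 1 * u 3 + 0 * v 3 = 0
            rw [u3]; ring
        · refine ha (neg_eq_zero.1 (hind a' (-a) ?_).2)
          funext m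
          fin_cases m
          · show a' * u 0 + -a * v 0 = 0
            rw [u0, v0]; ring
          · show a' * u 1 + -a * v 1 = 0
            rw [u1, v1]; ring
          · show a' * u 2 + -a * v 2 = 0
            rw [u2, v2]; ring
          · show a' * u 3 + -a * v 3 = 0
            rw [u3, v3]; ring
      · exact key v hv a' b' v1 v3 hb'
    · exact key u hu a b u1 u3 hb

end

theorem rat (h : S_mem) : S_rat := by
  intro K _ F h2 x y hnd hF hlines
  obtain ⟨-, -, hL, -⟩ := h K h2 x y hnd
  have hsc := fun i => exists_scale F hnd i (hlines _ (hL i 1 (Or.inl rfl)))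
    (hL i 1 (Or.inl rfl)).1
  choose hc hz using hsc
  choose c hc0 hcx hcy using hc
  have h2F : (2 : K) ∈ F := by
    have : (2 : K) = 1 + 1 := by norm_num
    rw [this]
    exact add_mem (one_mem F) (one_mem F)
  have hC0 : c 0 * c 1 * c 2 * c 3 * c 4 ≠ 0 :=
    mul_ne_zero (mul_ne_zero (mul_ne_zero (mul_ne_zero (hc0 0) (hc0 1)) (hc0 2)) (hc0 3)) (hc0 4)
  have hCF : c 0 * c 1 * c 2 * c 3 * c 4 ∈ F := by
    by_cases hpr : pr x = 0
    · obtain ⟨i, hi⟩ : ∃ i, x i = 0 := by
        simp only [pr, mul_eq_zero] at hpr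
        rcases hpr with (((h | h) | h) | h) | h
        exacts [⟨0, h⟩, ⟨1, h⟩, ⟨2, h⟩, ⟨3, h⟩, ⟨4, h⟩]
      have hyi : y i ≠ 0 := by
        intro hy
        have hj : ∀ i : Fin 5, ∃ j : Fin 5, i ≠ j := by decide
        obtain ⟨j, hj⟩ := hj i
        apply hnd i j hj
        rw [hi, hy]
        ring
      have ho : others x i ≠ 0 := by
        rw [others, Finset.prod_ne_zero_iff]
        intro j hj hx
        apply hnd i j (Ne.symm (mem_erase.1 hj).1)
        rw [hi, hx]
        ring
      have h4 : c 0 * c 1 * c 2 * c 3 * c 4 =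
          ((∏ j ∈ univ.erase i, c j * x j) * (c i * y i)) / (others x i * y i) := by
        rw [Finset.prod_mul_distrib, ← others, ← others]
        have h5 : c 0 * c 1 * c 2 * c 3 * c 4 = others c i * c i := by
          rw [others, Finset.prod_erase_mul _ _ (mem_univ i), Fin.prod_univ_five]
        rw [h5]
        field_simp
      rw [h4]
      exact div_mem (mul_mem (prod_mem fun j _ => hcx j) (hcy i)) (hz i hi)
    · have h3 : pr x ∈ F := by
        have h4 := hF 3 3 0
        have h5 : arrS x y 3 3 0 = 2 * pr x := rfl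
        rw [h5] at h4
        have h6 : pr x = (2 * pr x) / 2 := by field_simp
        rw [h6]
        exact div_mem h4 h2F
      have h4 : c 0 * c 1 * c 2 * c 3 * c 4 =
          ((c 0 * x 0) * (c 1 * x 1) * (c 2 * x 2) * (c 3 * x 3) * (c 4 * x 4)) / pr x := by
        rw [eq_div_iff hpr, pr]
        ring
      rw [h4]
      exact div_mem (mul_mem (mul_mem (mul_mem (mul_mem (hcx 0) (hcx 1)) (hcx 2)) (hcx 3))
        (hcx 4)) h3
  set C := c 0 * c 1 * c 2 * c 3 * c 4 with hC
  let d : Fin 5 → K := ![c 0 / C, c 1, c 2, c 3, c 4]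
  have hd : d 0 * d 1 * d 2 * d 3 * d 4 = 1 := by
    show c 0 / C * c 1 * c 2 * c 3 * c 4 = 1
    have : c 0 / C * c 1 * c 2 * c 3 * c 4 = C / C := by
      rw [div_mul_eq_mul_div, div_mul_eq_mul_div, div_mul_eq_mul_div, div_mul_eq_mul_div, ← hC]
    rw [this, div_self hC0]
  have hd0 : ∀ i, d i ≠ 0 := by
    intro i
    fin_cases i
    · exact div_ne_zero (hc0 0) hC0
    · exact hc0 1
    · exact hc0 2
    · exact hc0 3
    · exact hc0 4
  have hdF : ∀ z : Fin 5 → K, (∀ i, c i * z i ∈ F) → ∀ i, d i * z i ∈ F := by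
    intro z hz i
    fin_cases i
    · show c 0 / C * z 0 ∈ F
      rw [div_mul_eq_mul_div]
      exact div_mem (hz 0) hCF
    · exact hz 1
    · exact hz 2
    · exact hz 3
    · exact hz 4
  refine ⟨fun i => d i * x i, fun i => d i * y i, hdF x hcx, hdF y hcy, ?_, ?_⟩
  · intro i j hij h3
    apply hnd i j hij
    have h4 : d i ^ 2 * d j ^ 2 ≠ 0 := mul_ne_zero (pow_ne_zero _ (hd0 i)) (pow_ne_zero _ (hd0 j))
    apply mul_left_cancel₀ h4
    linear_combination h3
  · have hpr : ∀ z : Fin 5 → K, pr (fun i => d i * z i) = pr z := by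
      intro z
      simp only [pr]
      linear_combination (z 0 * z 1 * z 2 * z 3 * z 4) * hd
    have hpc : ∀ k, pc ((fun i => d i * x i) ^ 2) ((fun i => d i * y i) ^ 2) k =
        (d 0 * d 1 * d 2 * d 3 * d 4) ^ 2 * pc (x ^ 2) (y ^ 2) k := by
      intro k
      fin_cases k <;>
      · simp only [pc, Pi.pow_apply, Matrix.cons_val_zero, Matrix.cons_val_one, Matrix.cons_val,
          Fin.zero_eta, Fin.mk_one, Fin.reduceFinMk]
        ring
    simp only [arrS, hpr, hpc, hd, one_pow, one_mul]

end Pool.Agent.Q285.HE
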