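import Pool.Agent.Q285.HE.Tab

/-!
# Hyperbolic and elliptic lines on split cubic surfaces: small fields
-/

namespace Pool.Agent.Q285.HE

open Finset Pool.Agent.Q52.HE

instance fact7 : Fact (Nat.Prime 7) := ⟨by norm_num⟩
instance fact11 : Fact (Nat.Prime 11) := ⟨by norm_num⟩
instance fact13 : Fact (Nat.Prime 13) := ⟨by norm_num⟩

/-- the table of squares for 7 elements -/
def tD7 (a b : Fin 5) : Bool := Nat.testBit 22853601 (5 * a.1 + b.1)

/-- the second table for 7 elements -/
def tP7 (a b : Fin 5) : Bool := Nat.testBit 6676463 (5 * a.1 + b.1)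

/-- the tables for `ZMod 7` -/
def tab7 : Tab (ZMod 7) 5 tD7 tP7 false where
  X := ![0, 1, 1, 2, 3]
  Y := ![1, 0, 1, 1, 1]
  rep := by
    intro u v h
    by_cases hv : v = 0
    · exact ⟨1, u, 1, by simp, by simp [hv]⟩
    · have h1 : ∀ w : ZMod 7, ∃ (t : Fin 5) (e : ℤˣ), w = ((e : ℤ) : ZMod 7) * (![0, 1, 1, 2, 3] : Fin 5 → ZMod 7) t ∧
          (![1, 0, 1, 1, 1] : Fin 5 → ZMod 7) t = 1 := by decide +kernel
      obtain ⟨t, e, h2, h3⟩ := h1 (u / v)
      refine ⟨t, v, e, ?_, ?_⟩
      · rw [← h2]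
        field_simp
      · rw [h3, mul_one]
  hD := by decide +kernel
  hP := by decide +kernel
  hm := by decide +kernel

/-- the table of squares for 11 elements -/
def tD11 (a b : Fin 7) : Bool := Nat.testBit 498540907691905 (7 * a.1 + b.1)

/-- the second table for 11 elements -/
def tP11 (a b : Fin 7) : Bool := Nat.testBit 156375259742199 (7 * a.1 + b.1)

/-- the tables for `ZMod 11` -/
def tab11 : Tab (ZMod 11) 7 tD11 tP11 false where
  X := ![0, 1, 1, 2, 3, 4, 5]
  Y := ![1, 0, 1, 1, 1, 1, 1]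
  rep := by
    intro u v h
    by_cases hv : v = 0
    · exact ⟨1, u, 1, by simp, by simp [hv]⟩
    · have h1 : ∀ w : ZMod 11, ∃ (t : Fin 7) (e : ℤˣ), w = ((e : ℤ) : ZMod 11) * (![0, 1, 1, 2, 3, 4, 5] : Fin 7 → ZMod 11) t ∧
          (![1, 0, 1, 1, 1, 1, 1] : Fin 7 → ZMod 11) t = 1 := by decide +kernel
      obtain ⟨t, e, h2, h3⟩ := h1 (u / v)
      refine ⟨t, v, e, ?_, ?_⟩
      · rw [← h2]
        field_simp
      · rw [h3, mul_one]
  hD := by decide +kernel
  hP := by decide +kernel
  hm := by decide +kernel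

/-- the table of squares for 13 elements -/
def tD13 (a b : Fin 8) : Bool := Nat.testBit 10913184876829081599 (8 * a.1 + b.1)

/-- the second table for 13 elements -/
def tP13 (a b : Fin 8) : Bool := Nat.testBit 12854051271293534007 (8 * a.1 + b.1)

/-- the tables for `ZMod 13` -/
def tab13 : Tab (ZMod 13) 8 tD13 tP13 true where
  X := ![0, 1, 1, 2, 3, 4, 5, 6]
  Y := ![1, 0, 1, 1, 1, 1, 1, 1]
  rep := by
    intro u v h
    by_cases hv : v = 0
    · exact ⟨1, u, 1, by simp, by simp [hv]⟩
    · have h1 : ∀ w : ZMod 13, ∃ (t : Fin 8) (e : ℤˣ), w = ((e : ℤ) : ZMod 13) * (![0, 1, 1, 2, 3, 4, 5, 6] : Fin 8 → ZMod 13) t ∧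
          (![1, 0, 1, 1, 1, 1, 1, 1] : Fin 8 → ZMod 13) t = 1 := by decide +kernel
      obtain ⟨t, e, h2, h3⟩ := h1 (u / v)
      refine ⟨t, v, e, ?_, ?_⟩
      · rw [← h2]
        field_simp
      · rw [h3, mul_one]
  hD := by decide +kernel
  hP := by decide +kernel
  hm := by decide +kernel

/-- transport of tables -/
def Tab.map {K k : Type} [Field K] [Field k] {n : ℕ} {tD tP : Fin n → Fin n → Bool} {m : Bool}
    (T : Tab K n tD tP m) (e : K ≃+* k) : Tab k n tD tP m where
  X := fun t => e (T.X t)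
  Y := fun t => e (T.Y t)
  rep := by
    intro u v h
    obtain ⟨t, l, s, h1, h2⟩ := T.rep (e.symm u) (e.symm v) (by
      rintro ⟨h1, h2⟩
      exact h ⟨(map_eq_zero_iff _ e.symm.injective).1 h1, (map_eq_zero_iff _ e.symm.injective).1 h2⟩)
    refine ⟨t, e l, s, ?_, ?_⟩
    · have h3 := congrArg e h1
      rw [RingEquiv.apply_symm_apply, map_mul, map_mul, map_intCast] at h3
      exact h3
    · have h3 := congrArg e h2
      rw [RingEquiv.apply_symm_apply, map_mul] at h3
      exact h3
  hD := by
    intro a b hab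
    rw [← T.hD a b hab]
    have h1 : e (T.X a) ^ 2 * e (T.Y b) ^ 2 - e (T.X b) ^ 2 * e (T.Y a) ^ 2 =
        e (T.X a ^ 2 * T.Y b ^ 2 - T.X b ^ 2 * T.Y a ^ 2) := by simp
    rw [h1]
    constructor
    · intro h
      have := h.map e.symm
      rwa [RingEquiv.symm_apply_apply] at this
    · exact fun h => h.map e
  hP := by
    intro a b hab
    rw [← T.hP a b hab]
    have h1 : e (T.X a) * e (T.Y b) + e (T.X b) * e (T.Y a) =
        e (T.X a * T.Y b + T.X b * T.Y a) := by simp
    rw [h1]
    constructor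
    · intro h
      have := h.map e.symm
      rwa [RingEquiv.symm_apply_apply] at this
    · exact fun h => h.map e
  hm := by
    rw [← T.hm]
    have h1 : (-1 : k) = e (-1) := by simp
    rw [h1]
    constructor
    · intro h
      have := h.map e.symm
      rwa [RingEquiv.symm_apply_apply] at this
    · exact fun h => h.map e

/-- the finite check -/
def good (s0 s1 s2 s3 s4 r : Bool) : Bool :=
  ((s0.toNat + s1.toNat + s2.toNat + s3.toNat + s4.toNat) != 1) &&
    (!(s0 && s1 && s2 && s3 && s4) || r)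

/-- the finite check for five classes -/
def chk {n : ℕ} (tD tP : Fin n → Fin n → Bool) (m : Bool) (a b c d e : Fin n) : Bool :=
  good (sD tD a b c d e) (sD tD b a c d e) (sD tD c a b d e) (sD tD d a b c e) (sD tD e a b c d)
    (sP tP m a b c d e)

theorem chk11 : ∀ a b : Fin 7, a ≠ b → ∀ c, (c ≠ a ∧ c ≠ b) → ∀ d, (d ≠ a ∧ d ≠ b ∧ d ≠ c) →
    ∀ e, (e ≠ a ∧ e ≠ b ∧ e ≠ c ∧ e ≠ d) → chk tD11 tP11 false a b c d e = true := by
  decide +kernel

theorem chk13 : ∀ a b : Fin 8, a ≠ b → ∀ c, (c ≠ a ∧ c ≠ b) → ∀ d, (d ≠ a ∧ d ≠ b ∧ d ≠ c) →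
    ∀ e, (e ≠ a ∧ e ≠ b ∧ e ≠ c ∧ e ≠ d) → chk tD13 tP13 true a b c d e = true := by
  decide +kernel

theorem chk7 : ∀ a b : Fin 5, a ≠ b → ∀ c, (c ≠ a ∧ c ≠ b) → ∀ d, (d ≠ a ∧ d ≠ b ∧ d ≠ c) →
    ∀ e, (e ≠ a ∧ e ≠ b ∧ e ≠ c ∧ e ≠ d) → (sD tD7 a b c d e && sD tD7 b a c d e &&
      sD tD7 c a b d e && sD tD7 d a b c e && sD tD7 e a b c d && sP tP7 false a b c d e) = true := by
  decide +kernel

/-- the table of squares for 9 elements -/
def tD9 (a b : Fin 6) : Bool := Nat.testBit 20990181246 (6 * a.1 + b.1)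

/-- the second table for 9 elements -/
def tP9 (a b : Fin 6) : Bool := Nat.testBit 20036992846 (6 * a.1 + b.1)

theorem chk9 : ∀ a b : Fin 6, a ≠ b → ∀ c, (c ≠ a ∧ c ≠ b) → ∀ d, (d ≠ a ∧ d ≠ b ∧ d ≠ c) →
    ∀ e, (e ≠ a ∧ e ≠ b ∧ e ≠ c ∧ e ≠ d) → chk tD9 tP9 true a b c d e = true := by
  decide +kernel

/-- the tables for a field with 9 elements -/
theorem tab9 {k : Type} [Field k] [Fintype k] (h2 : (2 : k) ≠ 0) (h9 : Fintype.card k = 9) :
    Nonempty (Tab k 6 tD9 tP9 true) := by
  classical
  have h3 : (3 : k) = 0 := by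
    have h : ((9 : ℕ) : k) = 0 := by
      rw [← h9]
      exact Nat.cast_card_eq_zero k
    have h' : (3 : k) * 3 = 0 := by
      push_cast at h
      linear_combination h
    exact mul_self_eq_zero.1 h'
  obtain ⟨j, hj0⟩ : IsSquare (-1 : k) := by
    rw [FiniteField.isSquare_neg_one_iff, h9]
    decide
  have hj : j ^ 2 = -1 := by rw [sq, ← hj0]
  have hp : ∀ w : k, w ^ 9 = w := fun w => by
    have := FiniteField.pow_card w
    rwa [h9] at this
  have q1 : IsSquare (1 : k) := ⟨1, by ring⟩
  have q2 : IsSquare (-1 : k) := ⟨j, hj0⟩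
  have q3 : IsSquare (j : k) := ⟨1 - j, by linear_combination (-1) * hj + j * h3⟩
  have q4 : IsSquare (-j : k) := ⟨1 + j, by linear_combination (-1) * hj + (-j) * h3⟩
  have hn : ∀ v : k, v ^ 4 = -1 → ¬ IsSquare v := by
    rintro v hv ⟨r, rfl⟩
    have hr : r ≠ 0 := by
      rintro rfl
      apply h2
      linear_combination 2 * hv
    have h8 : r ^ 8 = 1 := by
      have h1 := hp r
      apply mul_right_cancel₀ hr
      linear_combination h1
    apply h2
    linear_combination hv - h8
  have n1 : ¬ IsSquare (1 + j : k) := hn _ (by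
    linear_combination (j ^ 2 + 4 * j + 5) * hj - 1 * h3)
  have n2 : ¬ IsSquare (1 - j : k) := hn _ (by
    linear_combination (j ^ 2 - 4 * j + 5) * hj - 1 * h3)
  have n3 : ¬ IsSquare (-1 + j : k) := hn _ (by
    linear_combination (j ^ 2 - 4 * j + 5) * hj - 1 * h3)
  have n4 : ¬ IsSquare (-1 - j : k) := hn _ (by
    linear_combination (j ^ 2 + 4 * j + 5) * hj - 1 * h3)
  refine ⟨{ X := ![0, 1, 1, j, 1 - j, 1 + j], Y := ![1, 0, 1, 1, 1, 1], rep := ?_, hD := ?_, hP := ?_, hm := ?_ }⟩
  · intro u v h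
    by_cases hv : v = 0
    · exact ⟨1, u, 1, by simp, by simp [hv]⟩
    · have hw := hp (u / v)
      have h1 : ∀ w : k, w ^ 9 = w → ∃ (t : Fin 6) (e : ℤˣ), w = ((e : ℤ) : k) *
          (![0, 1, 1, j, 1 - j, 1 + j] : Fin 6 → k) t ∧ (![1, 0, 1, 1, 1, 1] : Fin 6 → k) t = 1 := by
        intro w hw
        have h4 : w * ((w - 1) * ((w + 1) * ((w - j) * ((w + j) * ((w - (1 - j)) *
            ((w + (1 - j)) * ((w - (1 + j)) * (w + (1 + j))))))))) = 0 := by
          have e1 : (w - 1) * (w + 1) = w ^ 2 - 1 := by ring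
          have e2 : (w - j) * (w + j) = w ^ 2 + 1 := by linear_combination (-1) * hj
          have e3 : (w - (1 - j)) * (w + (1 - j)) = w ^ 2 - j := by
            linear_combination (-1) * hj + j * h3
          have e4 : (w - (1 + j)) * (w + (1 + j)) = w ^ 2 + j := by
            linear_combination (-1) * hj - j * h3
          calc w * ((w - 1) * ((w + 1) * ((w - j) * ((w + j) * ((w - (1 - j)) *
            ((w + (1 - j)) * ((w - (1 + j)) * (w + (1 + j))))))))) =
              w * ((w - 1) * (w + 1)) * ((w - j) * (w + j)) * ((w - (1 - j)) * (w + (1 - j))) *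
                ((w - (1 + j)) * (w + (1 + j))) := by ring
            _ = w * (w ^ 2 - 1) * (w ^ 2 + 1) * (w ^ 2 - j) * (w ^ 2 + j) := by
              rw [e1, e2, e3, e4]
            _ = 0 := by linear_combination hw - (w * (w ^ 4 - 1)) * hj
        rcases mul_eq_zero.1 h4 with h | h
        · exact ⟨0, 1, by simp [h], rfl⟩
        rcases mul_eq_zero.1 h with h | h
        · exact ⟨2, 1, by simpa using sub_eq_zero.1 h, rfl⟩
        rcases mul_eq_zero.1 h with h | h
        · exact ⟨2, -1, by simpa using eq_neg_of_add_eq_zero_left h, rfl⟩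
        rcases mul_eq_zero.1 h with h | h
        · exact ⟨3, 1, by simpa using sub_eq_zero.1 h, rfl⟩
        rcases mul_eq_zero.1 h with h | h
        · exact ⟨3, -1, by simpa using eq_neg_of_add_eq_zero_left h, rfl⟩
        rcases mul_eq_zero.1 h with h | h
        · exact ⟨4, 1, by simpa using sub_eq_zero.1 h, rfl⟩
        rcases mul_eq_zero.1 h with h | h
        · refine ⟨4, -1, ?_, rfl⟩
          have h5 := eq_neg_of_add_eq_zero_left h
          show w = (((-1 : ℤˣ) : ℤ) : k) * (1 - j)
          rw [h5]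
          push_cast
          ring
        rcases mul_eq_zero.1 h with h | h
        · exact ⟨5, 1, by simpa using sub_eq_zero.1 h, rfl⟩
        · refine ⟨5, -1, ?_, rfl⟩
          have h5 := eq_neg_of_add_eq_zero_left h
          show w = (((-1 : ℤˣ) : ℤ) : k) * (1 + j)
          rw [h5]
          push_cast
          ring
      obtain ⟨t, e, h2, h3⟩ := h1 (u / v) hw
      refine ⟨t, v, e, ?_, ?_⟩
      · rw [← h2]
        field_simp
      · rw [h3, mul_one]
  · intro a b hab
    fin_cases a <;> fin_cases b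
    · exact absurd rfl hab
    · have h : (0 ^ 2 * 0 ^ 2 - 1 ^ 2 * 1 ^ 2 : k) = -1 := by linear_combination (0) * hj + (0) * h3
      exact iff_of_true (Eq.subst (motive := fun z => IsSquare z) h.symm q2) (by decide)
    · have h : (0 ^ 2 * 1 ^ 2 - 1 ^ 2 * 1 ^ 2 : k) = -1 := by linear_combination (0) * hj + (0) * h3
      exact iff_of_true (Eq.subst (motive := fun z => IsSquare z) h.symm q2) (by decide)
    · have h : (0 ^ 2 * 1 ^ 2 - j ^ 2 * 1 ^ 2 : k) = 1 := by linear_combination ((-1)) * hj + (0) * h3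
      exact iff_of_true (Eq.subst (motive := fun z => IsSquare z) h.symm q1) (by decide)
    · have h : (0 ^ 2 * 1 ^ 2 - (1 - j) ^ 2 * 1 ^ 2 : k) = -j := by linear_combination ((-1)) * hj + ((1) * j) * h3
      exact iff_of_true (Eq.subst (motive := fun z => IsSquare z) h.symm q4) (by decide)
    · have h : (0 ^ 2 * 1 ^ 2 - (1 + j) ^ 2 * 1 ^ 2 : k) = j := by linear_combination ((-1)) * hj + ((-1) * j) * h3
      exact iff_of_true (Eq.subst (motive := fun z => IsSquare z) h.symm q3) (by decide)
    · have h : (1 ^ 2 * 1 ^ 2 - 0 ^ 2 * 0 ^ 2 : k) = 1 := by linear_combination (0) * hj + (0) * h3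
      exact iff_of_true (Eq.subst (motive := fun z => IsSquare z) h.symm q1) (by decide)
    · exact absurd rfl hab
    · have h : (1 ^ 2 * 1 ^ 2 - 1 ^ 2 * 0 ^ 2 : k) = 1 := by linear_combination (0) * hj + (0) * h3
      exact iff_of_true (Eq.subst (motive := fun z => IsSquare z) h.symm q1) (by decide)
    · have h : (1 ^ 2 * 1 ^ 2 - j ^ 2 * 0 ^ 2 : k) = 1 := by linear_combination (0) * hj + (0) * h3
      exact iff_of_true (Eq.subst (motive := fun z => IsSquare z) h.symm q1) (by decide)
    · have h : (1 ^ 2 * 1 ^ 2 - (1 - j) ^ 2 * 0 ^ 2 : k) = 1 := by linear_combination (0) * hj + (0) * h3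
      exact iff_of_true (Eq.subst (motive := fun z => IsSquare z) h.symm q1) (by decide)
    · have h : (1 ^ 2 * 1 ^ 2 - (1 + j) ^ 2 * 0 ^ 2 : k) = 1 := by linear_combination (0) * hj + (0) * h3
      exact iff_of_true (Eq.subst (motive := fun z => IsSquare z) h.symm q1) (by decide)
    · have h : (1 ^ 2 * 1 ^ 2 - 0 ^ 2 * 1 ^ 2 : k) = 1 := by linear_combination (0) * hj + (0) * h3
      exact iff_of_true (Eq.subst (motive := fun z => IsSquare z) h.symm q1) (by decide)
    · have h : (1 ^ 2 * 0 ^ 2 - 1 ^ 2 * 1 ^ 2 : k) = -1 := by linear_combination (0) * hj + (0) * h3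
      exact iff_of_true (Eq.subst (motive := fun z => IsSquare z) h.symm q2) (by decide)
    · exact absurd rfl hab
    · have h : (1 ^ 2 * 1 ^ 2 - j ^ 2 * 1 ^ 2 : k) = -1 := by linear_combination ((-1)) * hj + ((1)) * h3
      exact iff_of_true (Eq.subst (motive := fun z => IsSquare z) h.symm q2) (by decide)
    · have h : (1 ^ 2 * 1 ^ 2 - (1 - j) ^ 2 * 1 ^ 2 : k) = 1 - j := by linear_combination ((-1)) * hj + ((1) * j) * h3
      exact iff_of_false (Eq.subst (motive := fun z => ¬ IsSquare z) h.symm n2) (by decide)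
    · have h : (1 ^ 2 * 1 ^ 2 - (1 + j) ^ 2 * 1 ^ 2 : k) = 1 + j := by linear_combination ((-1)) * hj + ((-1) * j) * h3
      exact iff_of_false (Eq.subst (motive := fun z => ¬ IsSquare z) h.symm n1) (by decide)
    · have h : (j ^ 2 * 1 ^ 2 - 0 ^ 2 * 1 ^ 2 : k) = -1 := by linear_combination ((1)) * hj + (0) * h3
      exact iff_of_true (Eq.subst (motive := fun z => IsSquare z) h.symm q2) (by decide)
    · have h : (j ^ 2 * 0 ^ 2 - 1 ^ 2 * 1 ^ 2 : k) = -1 := by linear_combination (0) * hj + (0) * h3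
      exact iff_of_true (Eq.subst (motive := fun z => IsSquare z) h.symm q2) (by decide)
    · have h : (j ^ 2 * 1 ^ 2 - 1 ^ 2 * 1 ^ 2 : k) = 1 := by linear_combination ((1)) * hj + ((-1)) * h3
      exact iff_of_true (Eq.subst (motive := fun z => IsSquare z) h.symm q1) (by decide)
    · exact absurd rfl hab
    · have h : (j ^ 2 * 1 ^ 2 - (1 - j) ^ 2 * 1 ^ 2 : k) = -1 - j := by linear_combination (0) * hj + ((1) * j) * h3
      exact iff_of_false (Eq.subst (motive := fun z => ¬ IsSquare z) h.symm n4) (by decide)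
    · have h : (j ^ 2 * 1 ^ 2 - (1 + j) ^ 2 * 1 ^ 2 : k) = -1 + j := by linear_combination (0) * hj + ((-1) * j) * h3
      exact iff_of_false (Eq.subst (motive := fun z => ¬ IsSquare z) h.symm n3) (by decide)
    · have h : ((1 - j) ^ 2 * 1 ^ 2 - 0 ^ 2 * 1 ^ 2 : k) = j := by linear_combination ((1)) * hj + ((-1) * j) * h3
      exact iff_of_true (Eq.subst (motive := fun z => IsSquare z) h.symm q3) (by decide)
    · have h : ((1 - j) ^ 2 * 0 ^ 2 - 1 ^ 2 * 1 ^ 2 : k) = -1 := by linear_combination (0) * hj + (0) * h3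
      exact iff_of_true (Eq.subst (motive := fun z => IsSquare z) h.symm q2) (by decide)
    · have h : ((1 - j) ^ 2 * 1 ^ 2 - 1 ^ 2 * 1 ^ 2 : k) = -1 + j := by linear_combination ((1)) * hj + ((-1) * j) * h3
      exact iff_of_false (Eq.subst (motive := fun z => ¬ IsSquare z) h.symm n3) (by decide)
    · have h : ((1 - j) ^ 2 * 1 ^ 2 - j ^ 2 * 1 ^ 2 : k) = 1 + j := by linear_combination (0) * hj + ((-1) * j) * h3
      exact iff_of_false (Eq.subst (motive := fun z => ¬ IsSquare z) h.symm n1) (by decide)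
    · exact absurd rfl hab
    · have h : ((1 - j) ^ 2 * 1 ^ 2 - (1 + j) ^ 2 * 1 ^ 2 : k) = -j := by linear_combination (0) * hj + ((-1) * j) * h3
      exact iff_of_true (Eq.subst (motive := fun z => IsSquare z) h.symm q4) (by decide)
    · have h : ((1 + j) ^ 2 * 1 ^ 2 - 0 ^ 2 * 1 ^ 2 : k) = -j := by linear_combination ((1)) * hj + ((1) * j) * h3
      exact iff_of_true (Eq.subst (motive := fun z => IsSquare z) h.symm q4) (by decide)
    · have h : ((1 + j) ^ 2 * 0 ^ 2 - 1 ^ 2 * 1 ^ 2 : k) = -1 := by linear_combination (0) * hj + (0) * h3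
      exact iff_of_true (Eq.subst (motive := fun z => IsSquare z) h.symm q2) (by decide)
    · have h : ((1 + j) ^ 2 * 1 ^ 2 - 1 ^ 2 * 1 ^ 2 : k) = -1 - j := by linear_combination ((1)) * hj + ((1) * j) * h3
      exact iff_of_false (Eq.subst (motive := fun z => ¬ IsSquare z) h.symm n4) (by decide)
    · have h : ((1 + j) ^ 2 * 1 ^ 2 - j ^ 2 * 1 ^ 2 : k) = 1 - j := by linear_combination (0) * hj + ((1) * j) * h3
      exact iff_of_false (Eq.subst (motive := fun z => ¬ IsSquare z) h.symm n2) (by decide)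
    · have h : ((1 + j) ^ 2 * 1 ^ 2 - (1 - j) ^ 2 * 1 ^ 2 : k) = j := by linear_combination (0) * hj + ((1) * j) * h3
      exact iff_of_true (Eq.subst (motive := fun z => IsSquare z) h.symm q3) (by decide)
    · exact absurd rfl hab
  · intro a b hab
    fin_cases a <;> fin_cases b
    · exact absurd rfl hab
    · have h : (0 * 0 + 1 * 1 : k) = 1 := by linear_combination (0) * hj + (0) * h3
      exact iff_of_true (Eq.subst (motive := fun z => IsSquare z) h.symm q1) (by decide)
    · have h : (0 * 1 + 1 * 1 : k) = 1 := by linear_combination (0) * hj + (0) * h3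
      exact iff_of_true (Eq.subst (motive := fun z => IsSquare z) h.symm q1) (by decide)
    · have h : (0 * 1 + j * 1 : k) = j := by linear_combination (0) * hj + (0) * h3
      exact iff_of_true (Eq.subst (motive := fun z => IsSquare z) h.symm q3) (by decide)
    · have h : (0 * 1 + (1 - j) * 1 : k) = 1 - j := by linear_combination (0) * hj + (0) * h3
      exact iff_of_false (Eq.subst (motive := fun z => ¬ IsSquare z) h.symm n2) (by decide)
    · have h : (0 * 1 + (1 + j) * 1 : k) = 1 + j := by linear_combination (0) * hj + (0) * h3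
      exact iff_of_false (Eq.subst (motive := fun z => ¬ IsSquare z) h.symm n1) (by decide)
    · have h : (1 * 1 + 0 * 0 : k) = 1 := by linear_combination (0) * hj + (0) * h3
      exact iff_of_true (Eq.subst (motive := fun z => IsSquare z) h.symm q1) (by decide)
    · exact absurd rfl hab
    · have h : (1 * 1 + 1 * 0 : k) = 1 := by linear_combination (0) * hj + (0) * h3
      exact iff_of_true (Eq.subst (motive := fun z => IsSquare z) h.symm q1) (by decide)
    · have h : (1 * 1 + j * 0 : k) = 1 := by linear_combination (0) * hj + (0) * h3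
      exact iff_of_true (Eq.subst (motive := fun z => IsSquare z) h.symm q1) (by decide)
    · have h : (1 * 1 + (1 - j) * 0 : k) = 1 := by linear_combination (0) * hj + (0) * h3
      exact iff_of_true (Eq.subst (motive := fun z => IsSquare z) h.symm q1) (by decide)
    · have h : (1 * 1 + (1 + j) * 0 : k) = 1 := by linear_combination (0) * hj + (0) * h3
      exact iff_of_true (Eq.subst (motive := fun z => IsSquare z) h.symm q1) (by decide)
    · have h : (1 * 1 + 0 * 1 : k) = 1 := by linear_combination (0) * hj + (0) * h3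
      exact iff_of_true (Eq.subst (motive := fun z => IsSquare z) h.symm q1) (by decide)
    · have h : (1 * 0 + 1 * 1 : k) = 1 := by linear_combination (0) * hj + (0) * h3
      exact iff_of_true (Eq.subst (motive := fun z => IsSquare z) h.symm q1) (by decide)
    · exact absurd rfl hab
    · have h : (1 * 1 + j * 1 : k) = 1 + j := by linear_combination (0) * hj + (0) * h3
      exact iff_of_false (Eq.subst (motive := fun z => ¬ IsSquare z) h.symm n1) (by decide)
    · have h : (1 * 1 + (1 - j) * 1 : k) = -1 - j := by linear_combination (0) * hj + ((1)) * h3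
      exact iff_of_false (Eq.subst (motive := fun z => ¬ IsSquare z) h.symm n4) (by decide)
    · have h : (1 * 1 + (1 + j) * 1 : k) = -1 + j := by linear_combination (0) * hj + ((1)) * h3
      exact iff_of_false (Eq.subst (motive := fun z => ¬ IsSquare z) h.symm n3) (by decide)
    · have h : (j * 1 + 0 * 1 : k) = j := by linear_combination (0) * hj + (0) * h3
      exact iff_of_true (Eq.subst (motive := fun z => IsSquare z) h.symm q3) (by decide)
    · have h : (j * 0 + 1 * 1 : k) = 1 := by linear_combination (0) * hj + (0) * h3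
      exact iff_of_true (Eq.subst (motive := fun z => IsSquare z) h.symm q1) (by decide)
    · have h : (j * 1 + 1 * 1 : k) = 1 + j := by linear_combination (0) * hj + (0) * h3
      exact iff_of_false (Eq.subst (motive := fun z => ¬ IsSquare z) h.symm n1) (by decide)
    · exact absurd rfl hab
    · have h : (j * 1 + (1 - j) * 1 : k) = 1 := by linear_combination (0) * hj + (0) * h3
      exact iff_of_true (Eq.subst (motive := fun z => IsSquare z) h.symm q1) (by decide)
    · have h : (j * 1 + (1 + j) * 1 : k) = 1 - j := by linear_combination (0) * hj + ((1) * j) * h3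
      exact iff_of_false (Eq.subst (motive := fun z => ¬ IsSquare z) h.symm n2) (by decide)
    · have h : ((1 - j) * 1 + 0 * 1 : k) = 1 - j := by linear_combination (0) * hj + (0) * h3
      exact iff_of_false (Eq.subst (motive := fun z => ¬ IsSquare z) h.symm n2) (by decide)
    · have h : ((1 - j) * 0 + 1 * 1 : k) = 1 := by linear_combination (0) * hj + (0) * h3
      exact iff_of_true (Eq.subst (motive := fun z => IsSquare z) h.symm q1) (by decide)
    · have h : ((1 - j) * 1 + 1 * 1 : k) = -1 - j := by linear_combination (0) * hj + ((1)) * h3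
      exact iff_of_false (Eq.subst (motive := fun z => ¬ IsSquare z) h.symm n4) (by decide)
    · have h : ((1 - j) * 1 + j * 1 : k) = 1 := by linear_combination (0) * hj + (0) * h3
      exact iff_of_true (Eq.subst (motive := fun z => IsSquare z) h.symm q1) (by decide)
    · exact absurd rfl hab
    · have h : ((1 - j) * 1 + (1 + j) * 1 : k) = -1 := by linear_combination (0) * hj + ((1)) * h3
      exact iff_of_true (Eq.subst (motive := fun z => IsSquare z) h.symm q2) (by decide)
    · have h : ((1 + j) * 1 + 0 * 1 : k) = 1 + j := by linear_combination (0) * hj + (0) * h3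
      exact iff_of_false (Eq.subst (motive := fun z => ¬ IsSquare z) h.symm n1) (by decide)
    · have h : ((1 + j) * 0 + 1 * 1 : k) = 1 := by linear_combination (0) * hj + (0) * h3
      exact iff_of_true (Eq.subst (motive := fun z => IsSquare z) h.symm q1) (by decide)
    · have h : ((1 + j) * 1 + 1 * 1 : k) = -1 + j := by linear_combination (0) * hj + ((1)) * h3
      exact iff_of_false (Eq.subst (motive := fun z => ¬ IsSquare z) h.symm n3) (by decide)
    · have h : ((1 + j) * 1 + j * 1 : k) = 1 - j := by linear_combination (0) * hj + ((1) * j) * h3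
      exact iff_of_false (Eq.subst (motive := fun z => ¬ IsSquare z) h.symm n2) (by decide)
    · have h : ((1 + j) * 1 + (1 - j) * 1 : k) = -1 := by linear_combination (0) * hj + ((1)) * h3
      exact iff_of_true (Eq.subst (motive := fun z => IsSquare z) h.symm q2) (by decide)
    · exact absurd rfl hab
  · exact iff_of_true q2 rfl

theorem card_ge {k : Type} [Field k] [Fintype k] (h2 : (2 : k) ≠ 0) (x y : Fin 5 → k)
    (hnd : ND x y) : 7 ≤ Fintype.card k := by
  classical
  let A : Finset k := univ.erase 0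
  have hA : A.card = Fintype.card k - 1 := by
    rw [Finset.card_erase_of_mem (mem_univ _), Finset.card_univ]
  have h1 : 2 * (A.image fun a => a * a).card ≤ A.card := by
    refine Finset.mul_card_image_le_card A 2 fun b hb => ?_
    obtain ⟨a, ha, rfl⟩ := Finset.mem_image.1 hb
    have ha0 : a ≠ 0 := (Finset.mem_erase.1 ha).1
    have hne : a ≠ -a := by
      intro h
      apply h2
      have h3 : (2 : k) * a = 0 := by linear_combination h
      exact (mul_eq_zero.1 h3).resolve_right ha0
    have h4 : ({a, -a} : Finset k) ⊆ A.filter fun c => c * c = a * a := by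
      intro c hc
      rw [Finset.mem_insert, Finset.mem_singleton] at hc
      rw [Finset.mem_filter, Finset.mem_erase]
      rcases hc with rfl | rfl
      · exact ⟨⟨ha0, mem_univ _⟩, rfl⟩
      · exact ⟨⟨neg_ne_zero.2 ha0, mem_univ _⟩, by ring⟩
    have h5 := Finset.card_le_card h4
    rwa [Finset.card_pair hne] at h5
  let f : Fin 5 → Option k := fun i => if y i = 0 then none else some (x i ^ 2 / y i ^ 2)
  have hf : Function.Injective f := by
    intro i j hij
    by_contra hne
    apply hnd i j hne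
    simp only [f] at hij
    split_ifs at hij with h3 h4 h4
    · rw [h3, h4]
      ring
    · have h5 := Option.some_injective _ hij
      rw [div_eq_div_iff (pow_ne_zero _ h3) (pow_ne_zero _ h4)] at h5
      exact h5
  have h3 : (univ.image f) ⊆ insert none (insert (some 0) ((A.image fun a => a * a).image some)) := by
    intro z hz
    obtain ⟨i, -, rfl⟩ := Finset.mem_image.1 hz
    simp only [f]
    split_ifs with h4
    · exact Finset.mem_insert_self _ _
    · refine Finset.mem_insert_of_mem ?_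
      by_cases h5 : x i = 0
      · rw [h5]
        simp
      · refine Finset.mem_insert_of_mem (Finset.mem_image_of_mem _ (Finset.mem_image.2
          ⟨x i / y i, Finset.mem_erase.2 ⟨div_ne_zero h5 h4, mem_univ _⟩, ?_⟩))
        field_simp
  have h4 := Finset.card_le_card h3
  rw [Finset.card_image_of_injective _ hf, Finset.card_univ, Fintype.card_fin] at h4
  have h5 := (h4.trans (Finset.card_insert_le _ _)).trans
    (Nat.add_le_add_right (Finset.card_insert_le _ _) 1)
  have h6 : ((A.image fun a => a * a).image (some : k → Option k)).card ≤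
      (A.image fun a => a * a).card := Finset.card_image_le
  omega

/-- the conclusion from the tables -/
theorem concl {k : Type} [Field k] [Fintype k] {n : ℕ} {tD tP : Fin n → Fin n → Bool} {m : Bool}
    (T : Tab k n tD tP m)
    (hchk : ∀ a b : Fin n, a ≠ b → ∀ c, (c ≠ a ∧ c ≠ b) → ∀ d, (d ≠ a ∧ d ≠ b ∧ d ≠ c) →
      ∀ e, (e ≠ a ∧ e ≠ b ∧ e ≠ c ∧ e ≠ d) → chk tD tP m a b c d e = true)
    (x y : Fin 5 → k) (hnd : ND x y) :
    Nat.card {i // ¬ IsSquare (DD x y i)} ≠ 4 ∧
    ((∀ i, IsSquare (DD x y i)) → ∃ s : Sg, IsSquare (RR (sg s.1 x) y)) := by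
  classical
  obtain ⟨c, hc, h1, h2⟩ := of_tab T x y hnd
  have hne : ∀ i j : Fin 5, i ≠ j → c i ≠ c j := fun i j h h' => h (hc h')
  have h := hchk (c 0) (c 1) (hne _ _ (by decide)) (c 2)
    ⟨hne _ _ (by decide), hne _ _ (by decide)⟩ (c 3)
    ⟨hne _ _ (by decide), hne _ _ (by decide), hne _ _ (by decide)⟩ (c 4)
    ⟨hne _ _ (by decide), hne _ _ (by decide), hne _ _ (by decide), hne _ _ (by decide)⟩
  rw [chk] at h
  have hcard : Nat.card {i // ¬ IsSquare (DD x y i)} =
      (Finset.univ.filter fun i => ¬ IsSquare (DD x y i)).card := by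
    rw [Nat.card_eq_fintype_card, Fintype.card_subtype]
  rw [hcard]
  have hone : (1 : Fin 5 → ℤˣ) ∈ {s : Fin 5 → ℤˣ | ∏ i, s i = 1} := by simp
  have h3 : (∀ i, IsSquare (DD x y i)) → sP tP m (c 0) (c 1) (c 2) (c 3) (c 4) = true →
      ∃ s : Sg, IsSquare (RR (sg s.1 x) y) := fun ha hb => ⟨⟨1, hone⟩, h2 ha hb 1⟩
  clear h2 hcard
  simp only [h1] at h3 ⊢
  generalize sD tD (c 0) (c 1) (c 2) (c 3) (c 4) = s0 at *
  generalize sD tD (c 1) (c 0) (c 2) (c 3) (c 4) = s1 at *
  generalize sD tD (c 2) (c 0) (c 1) (c 3) (c 4) = s2 at *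
  generalize sD tD (c 3) (c 0) (c 1) (c 2) (c 4) = s3 at *
  generalize sD tD (c 4) (c 0) (c 1) (c 2) (c 3) = s4 at *
  generalize sP tP m (c 0) (c 1) (c 2) (c 3) (c 4) = r at *
  refine ⟨?_, fun ha => h3 ha ?_⟩
  · clear h3
    cases s0 <;> cases s1 <;> cases s2 <;> cases s3 <;> cases s4 <;> cases r <;> revert h <;> decide
  · have e0 := ha 0
    have e1 := ha 1
    have e2 := ha 2
    have e3 := ha 3
    have e4 := ha 4
    simp only [Matrix.cons_val_zero, Matrix.cons_val_one, Matrix.cons_val] at e0 e1 e2 e3 e4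
    rw [e0, e1, e2, e3, e4] at h
    cases r
    · exact absurd h (by decide)
    · rfl

theorem small : S_small := by
  classical
  intro k _ _ h2 x y hnd
  refine ⟨card_ge h2 x y hnd, fun h7 => ?_, fun hq => ?_⟩
  · have T := tab7.map (ZMod.ringEquivOfPrime k (p := 7) (by norm_num) h7)
    obtain ⟨c, hc, h1, h3⟩ := of_tab T x y hnd
    have hne : ∀ i j : Fin 5, i ≠ j → c i ≠ c j := fun i j h h' => h (hc h')
    have h := chk7 (c 0) (c 1) (hne _ _ (by decide)) (c 2)
      ⟨hne _ _ (by decide), hne _ _ (by decide)⟩ (c 3)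
      ⟨hne _ _ (by decide), hne _ _ (by decide), hne _ _ (by decide)⟩ (c 4)
      ⟨hne _ _ (by decide), hne _ _ (by decide), hne _ _ (by decide), hne _ _ (by decide)⟩
    simp only [Bool.and_eq_true] at h
    obtain ⟨⟨⟨⟨⟨e0, e1⟩, e2⟩, e3⟩, e4⟩, er⟩ := h
    have hall : ∀ i, IsSquare (DD x y i) := by
      intro i
      rw [h1 i]
      fin_cases i
      exacts [e0, e1, e2, e3, e4]
    exact ⟨hall, fun s => h3 hall er s.1⟩
  · rcases hq with hq | hq | hq
    · obtain ⟨T⟩ := tab9 h2 hq
      exact concl T chk9 x y hnd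
    · exact concl (tab11.map (ZMod.ringEquivOfPrime k (p := 11) (by norm_num) hq)) chk11 x y hnd
    · exact concl (tab13.map (ZMod.ringEquivOfPrime k (p := 13) (by norm_num) hq)) chk13 x y hnd

end Pool.Agent.Q285.HE
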