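import Pool.Agent.Q285.HE.Chi

/-!
# Hyperbolic and elliptic lines on split cubic surfaces: small fields, the reduction to tables
-/

namespace Pool.Agent.Q285.HE

open Finset Pool.Agent.Q52.HE

section
variable {k : Type} [Field k]

theorem DD_scale (l x y : Fin 5 → k) (i : Fin 5) :
    DD (fun j => l j * x j) (fun j => l j * y j) i =
      (∏ j ∈ univ.erase i, l i * l j) * (∏ j ∈ univ.erase i, l i * l j) * DD x y i := by
  rw [DD, DD, ← Finset.prod_mul_distrib, ← Finset.prod_mul_distrib]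
  refine Finset.prod_congr rfl fun j _ => ?_
  ring

theorem RR_scale (l c y : Fin 5 → k) :
    RR (fun j => l j * c j) (fun j => l j * y j) =
      (l 0 * l 1 * l 2 * l 3 * l 4) ^ 2 * (l 0 * l 1 * l 2 * l 3 * l 4) ^ 2 * RR c y := by
  have h : ∀ a b, l a * c a * (l b * y b) + l b * c b * (l a * y a) =
      l a * l b * (c a * y b + c b * y a) := fun a b => by ring
  simp only [RR, h]
  generalize c 0 * y 1 + c 1 * y 0 = q0
  generalize c 0 * y 2 + c 2 * y 0 = q1
  generalize c 0 * y 3 + c 3 * y 0 = q2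
  generalize c 0 * y 4 + c 4 * y 0 = q3
  generalize c 1 * y 2 + c 2 * y 1 = q4
  generalize c 1 * y 3 + c 3 * y 1 = q5
  generalize c 1 * y 4 + c 4 * y 1 = q6
  generalize c 2 * y 3 + c 3 * y 2 = q7
  generalize c 2 * y 4 + c 4 * y 2 = q8
  generalize c 3 * y 4 + c 4 * y 3 = q9
  ring

/-- the classes of the points modulo scaling and sign, and tables of the squares -/
structure Tab (k : Type) [Field k] (n : ℕ) (tD tP : Fin n → Fin n → Bool) (m : Bool) where
  X : Fin n → k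
  Y : Fin n → k
  rep : ∀ u v : k, ¬ (u = 0 ∧ v = 0) → ∃ (t : Fin n) (l : k) (e : ℤˣ),
    u = l * (((e : ℤ) : k) * X t) ∧ v = l * Y t
  hD : ∀ a b, a ≠ b → (IsSquare (X a ^ 2 * Y b ^ 2 - X b ^ 2 * Y a ^ 2) ↔ tD a b = true)
  hP : ∀ a b, a ≠ b → (IsSquare (X a * Y b + X b * Y a) ↔ tP a b = true)
  hm : IsSquare (-1 : k) ↔ m = true

/-- the entry for a line `lineL` -/
def sD {n : ℕ} (tD : Fin n → Fin n → Bool) (a b c d e : Fin n) : Bool :=
  tD a b == (tD a c == (tD a d == tD a e))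

/-- the entry for a line `lineM` -/
def sP {n : ℕ} (tP : Fin n → Fin n → Bool) (m : Bool) (a b c d e : Fin n) : Bool :=
  m == (tP a b == (tP a c == (tP a d == (tP a e == (tP b c == (tP b d == (tP b e ==
    (tP c d == (tP c e == tP d e)))))))))

variable [Fintype k] [DecidableEq k]

theorem sq_mul {a b : k} (ha : a ≠ 0) (hb : b ≠ 0) :
    IsSquare (a * b) ↔ (IsSquare a ↔ IsSquare b) := by
  rw [← quadraticChar_one_iff_isSquare (mul_ne_zero ha hb), ← quadraticChar_one_iff_isSquare ha,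
    ← quadraticChar_one_iff_isSquare hb, map_mul]
  rcases quadraticChar_dichotomy ha with h | h <;> rcases quadraticChar_dichotomy hb with h' | h' <;>
    rw [h, h'] <;> decide

theorem sq_beq {p q : Bool} {a b : k} (ha : a ≠ 0) (hb : b ≠ 0) (h : IsSquare a ↔ p = true)
    (h' : IsSquare b ↔ q = true) : IsSquare (a * b) ↔ (p == q) = true := by
  rw [sq_mul ha hb, h, h']
  cases p <;> cases q <;> simp

theorem sq_scale {a b : k} (ha : a ≠ 0) : IsSquare (a * a * b) ↔ IsSquare b := by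
  by_cases hb : b = 0
  · simp [hb]
  · rw [sq_mul (mul_ne_zero ha ha) hb]
    exact ⟨fun h => h.1 ⟨a, rfl⟩, fun h => ⟨fun _ => h, fun _ => ⟨a, rfl⟩⟩⟩

variable {n : ℕ} {tD tP : Fin n → Fin n → Bool} {m : Bool}

theorem sqDD (T : Tab k n tD tP m) (c : Fin 5 → Fin n) (hc : Function.Injective c)
    (hnd : ND (fun i => T.X (c i)) fun i => T.Y (c i)) (i : Fin 5) :
    IsSquare (DD (fun i => T.X (c i)) (fun i => T.Y (c i)) i) ↔
      ![sD tD (c 0) (c 1) (c 2) (c 3) (c 4), sD tD (c 1) (c 0) (c 2) (c 3) (c 4),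
        sD tD (c 2) (c 0) (c 1) (c 3) (c 4), sD tD (c 3) (c 0) (c 1) (c 2) (c 4),
        sD tD (c 4) (c 0) (c 1) (c 2) (c 3)] i = true := by
  have hne : ∀ i j, i ≠ j → T.X (c i) ^ 2 * T.Y (c j) ^ 2 - T.X (c j) ^ 2 * T.Y (c i) ^ 2 ≠ 0 :=
    fun i j hij => sub_ne_zero.2 (hnd i j hij)
  have hsq : ∀ i j, i ≠ j → (IsSquare (T.X (c i) ^ 2 * T.Y (c j) ^ 2 -
      T.X (c j) ^ 2 * T.Y (c i) ^ 2) ↔ tD (c i) (c j) = true) :=
    fun i j hij => T.hD _ _ fun h => hij (hc h)
  have key : ∀ a b c' d e : Fin 5, a ≠ b → a ≠ c' → a ≠ d → a ≠ e →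
      (IsSquare ((T.X (c a) ^ 2 * T.Y (c b) ^ 2 - T.X (c b) ^ 2 * T.Y (c a) ^ 2) *
        (T.X (c a) ^ 2 * T.Y (c c') ^ 2 - T.X (c c') ^ 2 * T.Y (c a) ^ 2) *
        (T.X (c a) ^ 2 * T.Y (c d) ^ 2 - T.X (c d) ^ 2 * T.Y (c a) ^ 2) *
        (T.X (c a) ^ 2 * T.Y (c e) ^ 2 - T.X (c e) ^ 2 * T.Y (c a) ^ 2)) ↔
        sD tD (c a) (c b) (c c') (c d) (c e) = true) := by
    intro a b c' d e h1 h2 h3 h4
    rw [mul_assoc, mul_assoc]
    exact sq_beq (hne _ _ h1) (mul_ne_zero (hne _ _ h2) (mul_ne_zero (hne _ _ h3) (hne _ _ h4)))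
      (hsq _ _ h1) (sq_beq (hne _ _ h2) (mul_ne_zero (hne _ _ h3) (hne _ _ h4)) (hsq _ _ h2)
        (sq_beq (hne _ _ h3) (hne _ _ h4) (hsq _ _ h3) (hsq _ _ h4)))
  rw [DD, erase_prod]
  fin_cases i
  · exact key 0 1 2 3 4 (by decide) (by decide) (by decide) (by decide)
  · exact key 1 0 2 3 4 (by decide) (by decide) (by decide) (by decide)
  · exact key 2 0 1 3 4 (by decide) (by decide) (by decide) (by decide)
  · exact key 3 0 1 2 4 (by decide) (by decide) (by decide) (by decide)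
  · exact key 4 0 1 2 3 (by decide) (by decide) (by decide) (by decide)

theorem sqRR (T : Tab k n tD tP m) (c : Fin 5 → Fin n) (hc : Function.Injective c)
    (hnd : ND (fun i => T.X (c i)) fun i => T.Y (c i)) :
    IsSquare (RR (fun i => T.X (c i)) (fun i => T.Y (c i))) ↔
      sP tP m (c 0) (c 1) (c 2) (c 3) (c 4) = true := by
  have hne : ∀ i j, i ≠ j → T.X (c i) * T.Y (c j) + T.X (c j) * T.Y (c i) ≠ 0 :=
    fun i j hij => fac_ne hnd i j hij
  have hsq : ∀ i j, i ≠ j → (IsSquare (T.X (c i) * T.Y (c j) + T.X (c j) * T.Y (c i)) ↔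
      tP (c i) (c j) = true) := fun i j hij => T.hP _ _ fun h => hij (hc h)
  have h01 : (0 : Fin 5) ≠ 1 := by decide
  have h02 : (0 : Fin 5) ≠ 2 := by decide
  have h03 : (0 : Fin 5) ≠ 3 := by decide
  have h04 : (0 : Fin 5) ≠ 4 := by decide
  have h12 : (1 : Fin 5) ≠ 2 := by decide
  have h13 : (1 : Fin 5) ≠ 3 := by decide
  have h14 : (1 : Fin 5) ≠ 4 := by decide
  have h23 : (2 : Fin 5) ≠ 3 := by decide
  have h24 : (2 : Fin 5) ≠ 4 := by decide
  have h34 : (3 : Fin 5) ≠ 4 := by decide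
  rw [RR, ← neg_one_mul]
  simp only [mul_assoc]
  have m9 := hne _ _ h34
  have m8 := mul_ne_zero (hne _ _ h24) m9
  have m7 := mul_ne_zero (hne _ _ h23) m8
  have m6 := mul_ne_zero (hne _ _ h14) m7
  have m5 := mul_ne_zero (hne _ _ h13) m6
  have m4 := mul_ne_zero (hne _ _ h12) m5
  have m3 := mul_ne_zero (hne _ _ h04) m4
  have m2 := mul_ne_zero (hne _ _ h03) m3
  have m1 := mul_ne_zero (hne _ _ h02) m2
  have m0 := mul_ne_zero (hne _ _ h01) m1
  exact sq_beq (neg_ne_zero.2 one_ne_zero) m0 T.hm <|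
    sq_beq (hne _ _ h01) m1 (hsq _ _ h01) <| sq_beq (hne _ _ h02) m2 (hsq _ _ h02) <|
    sq_beq (hne _ _ h03) m3 (hsq _ _ h03) <| sq_beq (hne _ _ h04) m4 (hsq _ _ h04) <|
    sq_beq (hne _ _ h12) m5 (hsq _ _ h12) <| sq_beq (hne _ _ h13) m6 (hsq _ _ h13) <|
    sq_beq (hne _ _ h14) m7 (hsq _ _ h14) <| sq_beq (hne _ _ h23) m8 (hsq _ _ h23) <|
    sq_beq (hne _ _ h24) m9 (hsq _ _ h24) (hsq _ _ h34)

/-- if all `DD` are squares, then all `RR` have the same character -/
theorem RR_const (x y : Fin 5 → k) (hnd : ND x y) (hall : ∀ i, IsSquare (DD x y i))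
    (s : Fin 5 → ℤˣ) : IsSquare (RR (sg s x) y) ↔ IsSquare (RR x y) := by
  have hE : ∀ (A : Finset (Fin 5)) (s : Fin 5 → ℤˣ), (∀ i, i ∉ A → s i = 1) →
      quadraticChar k (RR (sg s x) y) = quadraticChar k (RR (sg 1 x) y) := by
    intro A
    induction A using Finset.induction_on with
    | empty =>
      intro s hs
      have : s = 1 := funext fun i => hs i (Finset.notMem_empty i)
      rw [this]
    | insert a A ha ih =>
      intro s hs
      rcases Int.units_eq_one_or (s a) with h1 | h1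
      · refine ih s fun i hi => ?_
        by_cases hia : i = a
        · rw [hia, h1]
        · exact hs i fun h => (Finset.mem_insert.1 h).elim hia hi
      · have h3 := chi_flip x y hnd s a
        rw [(quadraticChar_one_iff_isSquare (DD_ne hnd a)).2 (hall a), mul_one] at h3
        rw [← h3]
        refine ih _ fun i hi => ?_
        by_cases hia : i = a
        · rw [hia, Function.update_self, h1, neg_neg]
        · rw [Function.update_of_ne hia]
          exact hs i fun h => (Finset.mem_insert.1 h).elim hia hi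
  have h1 : sg 1 x = x := by
    funext i
    simp [sg]
  have h2 := hE univ s fun i hi => absurd (mem_univ i) hi
  rw [h1] at h2
  rw [← quadraticChar_one_iff_isSquare (RR_ne (ND_sg hnd s)),
    ← quadraticChar_one_iff_isSquare (RR_ne hnd), h2]

/-- The reduction to the tables. -/
theorem of_tab (T : Tab k n tD tP m) (x y : Fin 5 → k) (hnd : ND x y) :
    ∃ c : Fin 5 → Fin n, Function.Injective c ∧
      (∀ i, IsSquare (DD x y i) ↔
        ![sD tD (c 0) (c 1) (c 2) (c 3) (c 4), sD tD (c 1) (c 0) (c 2) (c 3) (c 4),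
          sD tD (c 2) (c 0) (c 1) (c 3) (c 4), sD tD (c 3) (c 0) (c 1) (c 2) (c 4),
          sD tD (c 4) (c 0) (c 1) (c 2) (c 3)] i = true) ∧
      ((∀ i, IsSquare (DD x y i)) → sP tP m (c 0) (c 1) (c 2) (c 3) (c 4) = true →
        ∀ s : Fin 5 → ℤˣ, IsSquare (RR (sg s x) y)) := by
  have hj : ∀ i : Fin 5, ∃ j : Fin 5, i ≠ j := by decide
  choose c l e hx hy using fun i => T.rep (x i) (y i) (by
    rintro ⟨h1, h2⟩
    obtain ⟨j, hj⟩ := hj i
    apply hnd i j hj
    rw [h1, h2]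
    ring)
  have he2 : ∀ i, (((e i : ℤ) : k)) ^ 2 = 1 := by
    intro i
    rcases Int.units_eq_one_or (e i) with h | h <;> simp [h]
  have hl : ∀ i, l i ≠ 0 := by
    intro i h0
    obtain ⟨j, hj⟩ := hj i
    apply hnd i j hj
    rw [hx i, hy i, h0]
    ring
  set X' : Fin 5 → k := fun i => T.X (c i) with hX'
  set Y' : Fin 5 → k := fun i => T.Y (c i) with hY'
  have hxe : x = fun j => l j * sg e X' j := funext hx
  have hye : y = fun j => l j * Y' j := funext hy
  have hnd' : ND X' Y' := by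
    intro i j hij h0
    apply hnd i j hij
    rw [hx i, hx j, hy i, hy j]
    have h1 := he2 i
    have h2 := he2 j
    simp only [hX', hY'] at h0
    linear_combination (l i ^ 2 * l j ^ 2) * h0 + (l i ^ 2 * l j ^ 2 * T.X (c i) ^ 2 *
      T.Y (c j) ^ 2) * h1 - (l i ^ 2 * l j ^ 2 * T.X (c j) ^ 2 * T.Y (c i) ^ 2) * h2
  have hinj : Function.Injective c := by
    intro i j hij
    by_contra hne
    apply hnd' i j hne
    simp only [hX', hY', hij]
  have hDD : ∀ i, IsSquare (DD x y i) ↔ IsSquare (DD X' Y' i) := by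
    intro i
    rw [hxe, hye, DD_scale, sq_scale, DD_congr (sg_sq e X')]
    rw [Finset.prod_ne_zero_iff]
    exact fun j _ => mul_ne_zero (hl i) (hl j)
  refine ⟨c, hinj, fun i => (hDD i).trans (sqDD T c hinj hnd' i), fun hall hP s => ?_⟩
  rw [RR_const x y hnd hall s, hxe, hye, RR_scale, sq_scale, RR_const X' Y' hnd'
    (fun i => (hDD i).1 (hall i)), sqRR T c hinj hnd']
  · exact hP
  · exact pow_ne_zero _ (mul_ne_zero (mul_ne_zero (mul_ne_zero (mul_ne_zero (hl 0) (hl 1)) (hl 2))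
      (hl 3)) (hl 4))

end

end Pool.Agent.Q285.HE
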